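import Mathlib
import Pool.Agent.Lib_helper88.PolyTime.Arith

/-!
# More closure properties of polynomial-time functions (register programs)
-/

set_option autoImplicit false
set_option linter.dupNamespace false

namespace Pool.Agent.PT

open Function N487b59b3

theorem PT.all {δ ε α : Type} [N487b59b3 δ] [N487b59b3 ε] [N487b59b3 α] {g : ε × α → Bool}
    {e : δ → ε} {l : δ → List α} (hg : PT g) (he : PT e) (hl : PT l) :
    PT (fun d => (l d).all (fun a => g (e d, a))) := by
  have h := PT.fold (δ := δ) (ε := ε) (σ := Bool) (α := α)
    (g := fun p => p.2.1 && g (p.1, p.2.2)) (e := e) (s := fun _ => true) (l := l)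
    (PT.and PT.snd.comp_fst (hg.comp (PT.fst.pair PT.snd.comp_snd))) 1 (by
      intro e s a
      simp [enc_bool]) he (PT.const true) hl
  refine h.congr fun d => ?_
  have : ∀ (l : List α) (b : Bool), l.foldl (fun s a => s && g (e d, a)) b =
      (b && l.all (fun a => g (e d, a))) := by
    intro l
    induction l with
    | nil => intro b; simp
    | cons a l ih => intro b; simp [ih, Bool.and_assoc]
  simp [this]

theorem PT.any {δ ε α : Type} [N487b59b3 δ] [N487b59b3 ε] [N487b59b3 α] {g : ε × α → Bool}
    {e : δ → ε} {l : δ → List α} (hg : PT g) (he : PT e) (hl : PT l) :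
    PT (fun d => (l d).any (fun a => g (e d, a))) := by
  have h := PT.fold (δ := δ) (ε := ε) (σ := Bool) (α := α)
    (g := fun p => p.2.1 || g (p.1, p.2.2)) (e := e) (s := fun _ => false) (l := l)
    (PT.or PT.snd.comp_fst (hg.comp (PT.fst.pair PT.snd.comp_snd))) 1 (by
      intro e s a
      simp [enc_bool]) he (PT.const false) hl
  refine h.congr fun d => ?_
  have : ∀ (l : List α) (b : Bool), l.foldl (fun s a => s || g (e d, a)) b =
      (b || l.any (fun a => g (e d, a))) := by
    intro l
    induction l with
    | nil => intro b; simp
    | cons a l ih => intro b; simp [ih, Bool.or_assoc]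
  simp [this]

theorem length_enc_append {α : Type} [N487b59b3 α] (l m : List α) :
    (enc (l ++ m)).length = (enc l).length + (enc m).length := by
  rw [enc_append, List.length_append]

theorem PT.flatMap {δ ε α β : Type} [N487b59b3 δ] [N487b59b3 ε] [N487b59b3 α] [N487b59b3 β]
    {g : ε × α → List β} {e : δ → ε} {l : δ → List α} (hg : PT g) (he : PT e) (hl : PT l) :
    PT (fun d => (l d).flatMap (fun a => g (e d, a))) := by
  obtain ⟨q, hq⟩ := hg.length_bound
  have h := PT.fold (δ := δ) (ε := ε) (σ := List β) (α := α)
    (g := fun p => p.2.1 ++ g (p.1, p.2.2)) (e := e) (s := fun _ => []) (l := l)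
    (PT.append PT.snd.comp_fst (hg.comp (PT.fst.pair PT.snd.comp_snd)))
    (q.comp (2 * Polynomial.X + 1)) (by
      intro e s a
      rw [length_enc_append]
      have h1 := hq (e, a)
      have h2 := poly_mono q (show (enc (e, a)).length ≤
        2 * ((enc e).length + (enc a).length) + 1 by rw [length_enc_pair]; omega)
      simp only [Polynomial.eval_add, Polynomial.eval_mul, Polynomial.eval_X,
        Polynomial.eval_ofNat, Polynomial.eval_comp, Polynomial.eval_one]
      omega) he (PT.const []) hl
  refine h.congr fun d => ?_
  have : ∀ (l : List α) (m : List β), l.foldl (fun s a => s ++ g (e d, a)) m =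
      m ++ l.flatMap (fun a => g (e d, a)) := by
    intro l
    induction l with
    | nil => intro m; simp
    | cons a l ih => intro m; simp [ih, List.flatMap_cons]
  simp [this]

theorem PT.filter {δ ε α : Type} [N487b59b3 δ] [N487b59b3 ε] [N487b59b3 α] {g : ε × α → Bool}
    {e : δ → ε} {l : δ → List α} (hg : PT g) (he : PT e) (hl : PT l) :
    PT (fun d => (l d).filter (fun a => g (e d, a))) := by
  have h := PT.flatMap (g := fun p : ε × α => if g p then [p.2] else [])
    (PT.ite hg (PT.cons PT.snd (PT.const [])) (PT.const [])) he hl
  refine h.congr fun d => ?_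
  induction l d with
  | nil => rfl
  | cons a l ih =>
    rw [List.flatMap_cons, ih, List.filter_cons]
    split_ifs <;> simp

/-- the numbers `0, ..., n-1` in unary -/
def rangeU (n : ℕ) : List U := (List.range n).map U.mk

theorem length_enc_rangeU_step {α : Type} [N487b59b3 α] (l : List α) : ∀ (s : List U),
    (enc (l.foldl (fun (s : List U) _ => U.mk s.length :: s) s)).length ≤
      (enc s).length + l.length * (2 * (s.length + l.length) + 1) := by
  induction l with
  | nil => intro s; simp
  | cons a l ih =>
    intro s
    rw [List.foldl_cons]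
    refine le_trans (ih _) ?_
    rw [length_enc_cons, length_enc_U, List.length_cons, List.length_cons]
    simp only
    nlinarith

theorem PT.rangeList {α β : Type} [N487b59b3 α] [N487b59b3 β] {f : α → List β} (hf : PT f) :
    PT (fun a => rangeU (f a).length) := by
  have h1 : PT (fun p : Bool × List U × List β =>
      p.2.2.foldl (fun (s : List U) _ => U.mk s.length :: s) p.2.1) := by
    refine PT.foldl (g := fun p : Bool × List U × β => U.mk p.2.1.length :: p.2.1)
      (PT.cons (PT.length PT.snd.comp_fst) PT.snd.comp_fst)
      (Polynomial.X + Polynomial.X * (2 * (Polynomial.X + Polynomial.X) + 1)) ?_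
    intro e s l
    refine le_trans (length_enc_rangeU_step l s) ?_
    have hlen : (enc (e, s, l)).length = 2 * (enc e).length + 1 + (2 * (enc s).length + 1 +
      (enc l).length) := by rw [length_enc_pair, length_enc_pair]
    have h2 := length_le_enc s
    have h3 := length_le_enc l
    set N := (enc (e, s, l)).length
    have h4 : l.length * (2 * (s.length + l.length) + 1) ≤ N * (2 * (N + N) + 1) :=
      Nat.mul_le_mul (by omega) (by omega)
    simp only [Polynomial.eval_add, Polynomial.eval_mul, Polynomial.eval_X,
      Polynomial.eval_ofNat, Polynomial.eval_one]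
    omega
  have h2 := h1.comp ((PT.const true).pair ((PT.const []).pair hf))
  refine (PT.reverse.comp h2).congr fun a => ?_
  have : ∀ (l : List β) (m : ℕ),
      (l.foldl (fun (s : List U) _ => U.mk s.length :: s) ((Pool.Agent.PT.rangeU m).reverse)) =
        (Pool.Agent.PT.rangeU (m + l.length)).reverse := by
    intro l
    induction l with
    | nil => intro m; rfl
    | cons b l ih =>
      intro m
      rw [List.foldl_cons]
      have e1 : (U.mk ((Pool.Agent.PT.rangeU m).reverse).length ::
          (Pool.Agent.PT.rangeU m).reverse) = (Pool.Agent.PT.rangeU (m + 1)).reverse := by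
        simp [Pool.Agent.PT.rangeU, List.range_succ]
      rw [e1, ih, List.length_cons]
      congr 2
      omega
  have h3 := this (f a) 0
  simp only [Pool.Agent.PT.rangeU, List.range_zero, List.map_nil, List.reverse_nil,
    Nat.zero_add] at h3 ⊢
  rw [h3, List.reverse_reverse]

theorem PT.ueq {α : Type} [N487b59b3 α] {f g : α → U} (hf : PT f) (hg : PT g) :
    PT (fun a => decide ((f a) = (g a))) :=
  ((hf.ule hg).and (hg.ule hf)).congr fun a => by
    rcases f a with ⟨m⟩
    rcases g a with ⟨n⟩
    simp only [U.mk.injEq, ← Bool.decide_and]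
    congr 1
    exact propext ⟨fun h => le_antisymm h.1 h.2, fun h => ⟨h.le, h.ge⟩⟩

theorem PT.ult {α : Type} [N487b59b3 α] {f g : α → U} (hf : PT f) (hg : PT g) :
    PT (fun a => decide ((f a).val < (g a).val)) :=
  (hg.ule hf).not.congr fun a => by
    rw [← decide_not]
    congr 1
    exact propext not_le

end Pool.Agent.PT
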