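import Mathlib
import Pool.Agent.Lib_helper89.PPM.PTLib

/-!
# The pebble game algorithm: definition, and proof that it runs in polynomial time
-/

set_option autoImplicit false

namespace Pool.Agent.PPM

open PT

/-- a point of a permutation: index and value, in unary -/
abbrev Pt : Type := U × U

/-- a pebble: a point of the pattern and a point of the text -/
abbrev Peb : Type := Pt × Pt

/-- the points of the permutation with a given list of values -/
def pts (l : List U) : List Pt := (rangeU l.length).zip l

/-- all pebbles -/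
def pebs (P Q : List Pt) : List Peb := P.flatMap fun p => Q.map fun q => (p, q)

/-- all `k`-tuples of pebbles -/
def tuples (L : List Peb) : ℕ → List (List Peb)
  | 0 => [[]]
  | k + 1 => (tuples L k).flatMap fun t => L.map fun p => p :: t

/-- two pebbles are compatible -/
def rel (u v : Peb) : Bool :=
  (decide (u.1.1.val < v.1.1.val) == decide (u.2.1.val < v.2.1.val)) &&
    (decide (u.1.2.val < v.1.2.val) == decide (u.2.2.val < v.2.2.val))

/-- all pebbles are compatible with each other -/
def okk (w : List Peb) : Bool := w.all fun u => w.all fun v => rel u v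

/-- `w'` arises from `w` by moving pebble `a` to the point `p` of the pattern -/
def agree (a : U) (p : Pt) (w w' : List Peb) : Bool :=
  ((rangeU w.length).zip (w.zip w')).all fun z =>
    if decide (z.1 = a) then decide (z.2.2.1 = p) else decide (z.2.1 = z.2.2)

/-- in position `w` each pebble can be moved to each point -/
def good (K : ℕ) (P : List Pt) (H : List (List Peb)) (w : List Peb) : Bool :=
  (rangeU K).all fun a => P.all fun p => H.any fun w' => agree a p w w'

/-- removal of bad positions -/
def step (K : ℕ) (P : List Pt) (H : List (List Peb)) : List (List Peb) :=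
  H.filter fun w => good K P H w

/-- initial positions -/
def start (K : ℕ) (P Q : List Pt) : List (List Peb) := (tuples (pebs P Q) K).filter okk

/-- the algorithm -/
def alg (K : ℕ) (lP lQ : List U) : Bool :=
  lP.isEmpty || !((step K (pts lP))^[(start K (pts lP) (pts lQ)).length]
    (start K (pts lP) (pts lQ))).isEmpty

section

variable {α β γ δ : Type} [N487b59b3 α] [N487b59b3 β] [N487b59b3 γ] [N487b59b3 δ]

theorem eq_pair [DecidableEq β] [DecidableEq γ]
    (h1 : PT (fun p : β × β => decide (p.1 = p.2))) (h2 : PT (fun p : γ × γ => decide (p.1 = p.2))) :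
    PT (fun p : (β × γ) × (β × γ) => decide (p.1 = p.2)) := by
  refine (PT.and (h1.comp (PT.fst.comp_fst.pair PT.snd.comp_fst))
    (h2.comp (PT.fst.comp_snd.pair PT.snd.comp_snd))).congr fun p => ?_
  rcases p with ⟨⟨a, b⟩, ⟨c, d⟩⟩
  simp only [Prod.mk.injEq, Bool.decide_and]

theorem eq_U : PT (fun p : U × U => decide (p.1 = p.2)) := PT.ueq PT.fst PT.snd

theorem eq_Pt : PT (fun p : Pt × Pt => decide (p.1 = p.2)) := eq_pair eq_U eq_U

theorem eq_Peb : PT (fun p : Peb × Peb => decide (p.1 = p.2)) := eq_pair eq_Pt eq_Pt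

theorem pt_pts : PT pts := (PT.rangeList PT.id).zip PT.id

theorem pt_pebs {f g : δ → List Pt} (hf : PT f) (hg : PT g) : PT (fun d => pebs (f d) (g d)) := by
  have h1 : PT (fun p : List Pt × Pt => p.1.map fun q => (p.2, q)) :=
    PT.map (g := fun x : Pt × Pt => (x.1, x.2)) (e := fun p : List Pt × Pt => p.2)
      (l := fun p => p.1) (PT.fst.pair PT.snd) PT.snd PT.fst
  exact PT.flatMap h1 hg hf

theorem pt_tuples (k : ℕ) {f : δ → List Peb} (hf : PT f) : PT (fun d => tuples (f d) k) := by
  induction k with
  | zero => exact PT.const _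
  | succ k ih =>
    have h1 : PT (fun p : List Peb × List Peb => p.1.map fun q => q :: p.2) :=
      PT.map (g := fun x : List Peb × Peb => x.2 :: x.1) (e := fun p : List Peb × List Peb => p.2)
        (l := fun p => p.1) (PT.cons PT.snd PT.fst) PT.snd PT.fst
    exact PT.flatMap h1 hf ih

theorem pt_rel : PT (fun p : Peb × Peb => rel p.1 p.2) := by
  refine PT.and (PT.beq (PT.ult ?_ ?_) (PT.ult ?_ ?_)) (PT.beq (PT.ult ?_ ?_) (PT.ult ?_ ?_))
  · exact PT.fst.comp_fst.comp_fst
  · exact PT.snd.comp_fst.comp_fst
  · exact PT.fst.comp_snd.comp_fst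
  · exact PT.snd.comp_snd.comp_fst
  · exact PT.fst.comp_fst.comp_snd
  · exact PT.snd.comp_fst.comp_snd
  · exact PT.fst.comp_snd.comp_snd
  · exact PT.snd.comp_snd.comp_snd

theorem pt_okk : PT okk := by
  have h1 : PT (fun d : List Peb × Peb => d.1.all fun v => rel d.2 v) :=
    PT.all (g := fun p : Peb × Peb => rel p.1 p.2) pt_rel PT.snd PT.fst
  exact PT.all h1 PT.id PT.id

theorem pt_agree : PT (fun x : (U × Pt) × (List Peb × List Peb) =>
    agree x.1.1 x.1.2 x.2.1 x.2.2) := by
  have h1 : PT (fun x : (U × Pt) × (U × (Peb × Peb)) =>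
      if decide (x.2.1 = x.1.1) then decide (x.2.2.2.1 = x.1.2) else
        decide (x.2.2.1 = x.2.2.2)) := by
    refine PT.ite (eq_U.comp (PT.snd.comp_fst.pair PT.fst.comp_fst))
      (eq_Pt.comp (PT.snd.comp_snd.comp_snd.comp_fst.pair PT.fst.comp_snd)) ?_
    exact eq_Peb.comp (PT.snd.comp_snd.comp_fst.pair PT.snd.comp_snd.comp_snd)
  exact PT.all h1 PT.fst ((PT.rangeList PT.snd.comp_fst).zip (PT.snd.comp_fst.zip PT.snd.comp_snd))

theorem pt_good (K : ℕ) : PT (fun x : (List Pt × List (List Peb)) × List Peb =>
    good K x.1.1 x.1.2 x.2) := by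
  -- inner: exists w'
  have h1 : PT (fun x : (((List Pt × List (List Peb)) × List Peb) × U) × Pt =>
      x.1.1.1.2.any fun w' => agree x.1.2 x.2 x.1.1.2 w') := by
    have h0 : PT (fun z : ((((List Pt × List (List Peb)) × List Peb) × U) × Pt) × List Peb =>
        agree z.1.1.2 z.1.2 z.1.1.1.2 z.2) :=
      pt_agree.comp ((PT.fst.comp_fst.comp_snd.pair PT.fst.comp_snd).pair
        (PT.fst.comp_fst.comp_fst.comp_snd.pair PT.snd))
    exact PT.any h0 PT.id PT.fst.comp_fst.comp_fst.comp_snd
  have h2 : PT (fun x : ((List Pt × List (List Peb)) × List Peb) × U =>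
      x.1.1.1.all fun p => x.1.1.2.any fun w' => agree x.2 p x.1.2 w') :=
    PT.all h1 PT.id PT.fst.comp_fst.comp_fst
  exact PT.all h2 PT.id (PT.const (rangeU K))

theorem pt_step (K : ℕ) : PT (fun x : List Pt × List (List Peb) => step K x.1 x.2) :=
  PT.filter (pt_good K) PT.id PT.snd

theorem length_enc_filter_le {α : Type} [N487b59b3 α] (p : α → Bool) (l : List α) :
    (enc (l.filter p)).length ≤ (enc l).length := by
  induction l with
  | nil => simp
  | cons a l ih =>
    rw [List.filter_cons]
    split_ifs
    · rw [length_enc_cons, length_enc_cons]; omega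
    · rw [length_enc_cons]; omega

theorem pt_start (K : ℕ) : PT (fun x : List Pt × List Pt => start K x.1 x.2) := by
  have h1 := pt_tuples K (pt_pebs (PT.fst (α := List Pt) (β := List Pt)) PT.snd)
  exact PT.filter (g := fun x : Bool × List Peb => okk x.2) (pt_okk.comp PT.snd) (PT.const true) h1

theorem pt_alg (K : ℕ) : PT (fun x : List U × List U => alg K x.1 x.2) := by
  have hs : PT (fun x : List U × List U => start K (pts x.1) (pts x.2)) :=
    (pt_start K).comp ((pt_pts.comp PT.fst).pair (pt_pts.comp PT.snd))
  have hit := PT.iter (g := fun x : List Pt × List (List Peb) => step K x.1 x.2)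
    (e := fun x : List U × List U => pts x.1) (s := fun x => start K (pts x.1) (pts x.2))
    (n := fun x => U.mk (start K (pts x.1) (pts x.2)).length) (pt_step K) 0 (by
      intro e s
      have := length_enc_filter_le (fun w => good K e s w) s
      simpa [step] using this) (pt_pts.comp PT.fst) hs (PT.length hs)
  exact PT.or (PT.isEmpty.comp PT.fst) (PT.not (PT.isEmpty.comp hit))

end

end Pool.Agent.PPM
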