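import Mathlib
import Pool.Prelude.Def_H_3587d628
import Pool.Agent.Lib_helper88.PolyTime.Arith

/-!
# Permutation patterns, treewidth and the problem C-Pattern PPM: definitions
-/

set_option autoImplicit false

namespace Pool.Agent.PPM

/-- A permutation together with its length. -/
abbrev Permutation : Type := Σ n : ℕ, Equiv.Perm (Fin n)

/-- `Contains τ π`: the permutation `τ` contains `π`, i.e. some subsequence of `τ` is
order-isomorphic to `π`. -/
def Contains (τ π : Permutation) : Prop :=
  ∃ f : Fin π.1 → Fin τ.1, StrictMono f ∧ ∀ i j, π.2 i < π.2 j ↔ τ.2 (f i) < τ.2 (f j)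

/-- A permutation class: a set of permutations closed under containment. -/
def IsClass (C : Set Permutation) : Prop := ∀ τ ∈ C, ∀ π, Contains τ π → π ∈ C

/-- The graph `G_π` on the positions of `π`: positions adjacent in place or adjacent in value
are joined. -/
def permGraph (π : Permutation) : SimpleGraph (Fin π.1) :=
  SimpleGraph.fromRel fun i j => i.val + 1 = j.val ∨ (π.2 i).val + 1 = (π.2 j).val

/-- `G` has a tree decomposition of width at most `k`. -/
def TreewidthLE {V : Type} (G : SimpleGraph V) (k : ℕ) : Prop :=
  ∃ (m : ℕ) (T : SimpleGraph (Fin m)) (B : Fin m → Finset V), T.IsTree ∧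
    (∀ v, ∃ t, v ∈ B t) ∧ (∀ u v, G.Adj u v → ∃ t, u ∈ B t ∧ v ∈ B t) ∧
    (∀ v, (T.induce {t | v ∈ B t}).Connected) ∧ ∀ t, (B t).card ≤ k + 1

/-- The treewidth of the graphs `G_π`, `π ∈ C`, is unbounded. -/
def UnboundedTreewidth (C : Set Permutation) : Prop :=
  ∀ k : ℕ, ∃ π ∈ C, ¬ TreewidthLE (permGraph π) k

/-- the list of the values of a permutation -/
def values (π : Permutation) : List PT.U := List.ofFn fun i => PT.U.mk (π.2 i).val

theorem values_injective : Function.Injective values := by
  rintro ⟨n, π⟩ ⟨m, σ⟩ h
  have hlen := congrArg List.length h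
  simp only [values, List.length_ofFn] at hlen
  subst hlen
  congr 1
  apply Equiv.ext
  intro i
  have h1 := List.ofFn_injective h
  have h2 := congrArg PT.U.val (congrFun h1 i)
  exact Fin.ext h2

open Classical in
/-- A permutation is encoded by the list of its values, each value being written in unary, so that
the length of the encoding is polynomially related to the length of the permutation. -/
noncomputable instance : N487b59b3 Permutation :=
  N487b59b3.ofLeftInverse values
    (fun l => if h : ∃ π, values π = l then some h.choose else none) (by
      intro π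
      have h : ∃ σ, values σ = values π := ⟨π, rfl⟩
      rw [dif_pos h]
      exact congrArg some (values_injective h.choose_spec))

/-- The language `L` reduces to C-Pattern PPM: there is a polynomial-time function mapping each
word `x` to a pair (pattern, text) whose pattern is in `C`, such that `x ∈ L` iff the text
contains the pattern. -/
def ReducesToPatternPPM (L : List Bool → Bool) (C : Set Permutation) : Prop :=
  ∃ f : List Bool → Permutation × Permutation, N68a2faeb.IsPolyTime f ∧
    ∀ x, (f x).1 ∈ C ∧ (L x = true ↔ Contains (f x).2 (f x).1)

/-- C-Pattern PPM is NP-hard under polynomial-time many-one reductions. -/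
def PatternPPMHard (C : Set Permutation) : Prop :=
  ∀ L ∈ N68a2faeb.NP, ReducesToPatternPPM L C

end Pool.Agent.PPM
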