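import Mathlib

/-!
# Hierarchical decompositions of point sets and the pebble game

A finite set `S` of points with two injective coordinates `X`, `Y`. `Dec X Y S g A` says that `A`
can be built from single points by disjoint unions in such a way that all intermediate sets have
at most `g` boundary points, a boundary point being one whose neighbour (in one of the two orders
of `S`) is outside the set.
-/

set_option autoImplicit false

namespace Pool.Agent.PPM

variable {α β : Type*} [DecidableEq α]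

/-- `q` is the next point of `S` after `p` in the order of the coordinate `X` -/
def Next (X : α → ℤ) (S : Finset α) (p q : α) : Prop :=
  p ∈ S ∧ q ∈ S ∧ X p < X q ∧ ∀ r ∈ S, X r ≤ X p ∨ X q ≤ X r

/-- neighbours in one of the two orders -/
def Nbr (X Y : α → ℤ) (S : Finset α) (p q : α) : Prop :=
  Next X S p q ∨ Next X S q p ∨ Next Y S p q ∨ Next Y S q p

open Classical in
/-- boundary of `A` in `S` -/
noncomputable def bd (X Y : α → ℤ) (S A : Finset α) : Finset α :=
  A.filter fun p => ∃ q ∈ S, q ∉ A ∧ Nbr X Y S p q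

theorem mem_bd {X Y : α → ℤ} {S A : Finset α} {p : α} :
    p ∈ bd X Y S A ↔ p ∈ A ∧ ∃ q ∈ S, q ∉ A ∧ Nbr X Y S p q := by
  classical
  simp [bd]

/-- hierarchical decompositions -/
inductive Dec (X Y : α → ℤ) (S : Finset α) (g : ℕ) : Finset α → Prop
  | empty : Dec X Y S g ∅
  | single {p : α} : p ∈ S → Dec X Y S g {p}
  | union {A B : Finset α} : Dec X Y S g A → Dec X Y S g B → Disjoint A B →
      (bd X Y S (A ∪ B)).card ≤ g → Dec X Y S g (A ∪ B)

theorem Dec.subset {X Y : α → ℤ} {S : Finset α} {g : ℕ} {A : Finset α} (h : Dec X Y S g A) :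
    A ⊆ S := by
  induction h with
  | empty => exact Finset.empty_subset _
  | single h => exact Finset.singleton_subset_iff.mpr h
  | union _ _ _ _ ih1 ih2 => exact Finset.union_subset ih1 ih2

theorem Dec.card_bd {X Y : α → ℤ} {S : Finset α} {g : ℕ} {A : Finset α} (h : Dec X Y S g A)
    (hg : 1 ≤ g) : (bd X Y S A).card ≤ g := by
  classical
  cases h with
  | empty => simp [bd]
  | single h =>
    refine le_trans (Finset.card_le_card (Finset.filter_subset _ _)) ?_
    simpa using hg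
  | union _ _ _ h => exact h

theorem bd_union_left {X Y : α → ℤ} {S A B : Finset α} {p : α} (hp : p ∈ bd X Y S (A ∪ B))
    (hA : p ∈ A) : p ∈ bd X Y S A := by
  rw [mem_bd] at hp ⊢
  obtain ⟨_, q, hq, hqn, hn⟩ := hp
  exact ⟨hA, q, hq, fun h => hqn (Finset.mem_union_left _ h), hn⟩

theorem bd_union_right {X Y : α → ℤ} {S A B : Finset α} {p : α} (hp : p ∈ bd X Y S (A ∪ B))
    (hB : p ∈ B) : p ∈ bd X Y S B := by
  rw [mem_bd] at hp ⊢
  obtain ⟨_, q, hq, hqn, hn⟩ := hp
  exact ⟨hB, q, hq, fun h => hqn (Finset.mem_union_right _ h), hn⟩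

theorem card_bd_union (X Y : α → ℤ) (S A B : Finset α) :
    (bd X Y S (A ∪ B)).card ≤ (bd X Y S A).card + (bd X Y S B).card := by
  refine le_trans (Finset.card_le_card ?_) (Finset.card_union_le _ _)
  intro p hp
  have h := (mem_bd.mp hp).1
  rw [Finset.mem_union] at h ⊢
  rcases h with h | h
  · exact Or.inl (bd_union_left hp h)
  · exact Or.inr (bd_union_right hp h)

/-! ### ends of runs -/

theorem exists_next_right {X : α → ℤ} {S A : Finset α} (hX : Set.InjOn X S) (hA : A ⊆ S)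
    {p q : α} (hp : p ∈ A) (hq : q ∈ S) (hqA : q ∉ A) (hpq : X p < X q) :
    ∃ r s, r ∈ A ∧ s ∈ S ∧ s ∉ A ∧ Next X S r s ∧ X p ≤ X r ∧ X s ≤ X q := by
  classical
  obtain ⟨s, hs, hsmin⟩ := Finset.exists_min_image (S.filter fun s => s ∉ A ∧ X p < X s) X
    ⟨q, by simp [hq, hqA, hpq]⟩
  rw [Finset.mem_filter] at hs
  obtain ⟨r, hr, hrmax⟩ := Finset.exists_max_image (S.filter fun r => X r < X s) X
    ⟨p, by simp [hA hp, hs.2.2]⟩
  rw [Finset.mem_filter] at hr
  have hpr : X p ≤ X r := hrmax p (by simp [hA hp, hs.2.2])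
  refine ⟨r, s, ?_, hs.1, hs.2.1, ⟨hr.1, hs.1, hr.2, ?_⟩, hpr,
    hsmin q (by simp [hq, hqA, hpq])⟩
  · by_contra hrA
    rcases hpr.lt_or_eq with h | h
    · have := hsmin r (by simp [hr.1, hrA, h])
      omega
    · exact hrA (hX (hA hp) hr.1 h ▸ hp)
  · intro t ht
    by_cases h : X t < X s
    · exact Or.inl (hrmax t (by simp [ht, h]))
    · exact Or.inr (not_lt.mp h)

theorem exists_next_left {X : α → ℤ} {S A : Finset α} (hX : Set.InjOn X S) (hA : A ⊆ S)
    {p q : α} (hp : p ∈ A) (hq : q ∈ S) (hqA : q ∉ A) (hpq : X q < X p) :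
    ∃ s r, r ∈ A ∧ s ∈ S ∧ s ∉ A ∧ Next X S s r ∧ X r ≤ X p ∧ X q ≤ X s := by
  classical
  obtain ⟨s, hs, hsmax⟩ := Finset.exists_max_image (S.filter fun s => s ∉ A ∧ X s < X p) X
    ⟨q, by simp [hq, hqA, hpq]⟩
  rw [Finset.mem_filter] at hs
  obtain ⟨r, hr, hrmin⟩ := Finset.exists_min_image (S.filter fun r => X s < X r) X
    ⟨p, by simp [hA hp, hs.2.2]⟩
  rw [Finset.mem_filter] at hr
  have hpr : X r ≤ X p := hrmin p (by simp [hA hp, hs.2.2])
  refine ⟨s, r, ?_, hs.1, hs.2.1, ⟨hs.1, hr.1, hr.2, ?_⟩, hpr,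
    hsmax q (by simp [hq, hqA, hpq])⟩
  · by_contra hrA
    rcases hpr.lt_or_eq with h | h
    · have := hsmax r (by simp [hr.1, hrA, h])
      omega
    · exact hrA (hX (hA hp) hr.1 h.symm ▸ hp)
  · intro t ht
    by_cases h : X s < X t
    · exact Or.inr (hrmin t (by simp [ht, h]))
    · exact Or.inl (not_lt.mp h)

/-! ### the pebble game -/

/-- A family of positions of `K` pebbles on pairs (point of the pattern, point of the text):
each position is a partial embedding, and each pebble may be moved to each point of the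
pattern. -/
structure Game (X Y : α → ℤ) (X' Y' : β → ℤ) (S : Finset α) (K : ℕ)
    (H : Set (Fin K → α × β)) : Prop where
  cons : ∀ w ∈ H, ∀ a b, (w a).1 = (w b).1 → (w a).2 = (w b).2
  monoX : ∀ w ∈ H, ∀ a b, X (w a).1 < X (w b).1 → X' (w a).2 < X' (w b).2
  monoY : ∀ w ∈ H, ∀ a b, Y (w a).1 < Y (w b).1 → Y' (w a).2 < Y' (w b).2
  move : ∀ w ∈ H, ∀ a, ∀ p ∈ S, ∃ w' ∈ H, (∀ b, b ≠ a → w' b = w b) ∧ (w' a).1 = p

variable {X Y : α → ℤ} {X' Y' : β → ℤ} {S : Finset α} {K : ℕ} {H : Set (Fin K → α × β)}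

/-- Pebbles may be placed on a set `Q` without touching those on `Z`. -/
theorem Game.place (hH : Game X Y X' Y' S K H) {w : Fin K → α × β} (hw : w ∈ H)
    {Z Q : Finset α} (hZ : ∀ p ∈ Z, ∃ a, (w a).1 = p) (hQ : Q ⊆ S)
    (hcard : Z.card + Q.card ≤ K) :
    ∃ w' ∈ H, (∀ p ∈ Q, ∃ a, (w' a).1 = p) ∧ ∀ p ∈ Z, ∃ a, (w' a).1 = p ∧ w' a = w a := by
  classical
  have key : ∀ Q : Finset α, Q ⊆ S → Z.card + Q.card ≤ K →
      ∃ w' ∈ H, ∃ J : Finset (Fin K), J.card ≤ Z.card + Q.card ∧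
        (∀ p ∈ Q, ∃ a ∈ J, (w' a).1 = p) ∧ ∀ p ∈ Z, ∃ a ∈ J, (w' a).1 = p ∧ w' a = w a := by
    intro Q
    induction Q using Finset.induction_on with
    | empty =>
      intro _ _
      refine ⟨w, hw, Z.attach.image (fun z => (hZ z.1 z.2).choose), ?_, by simp, fun p hp => ?_⟩
      · refine le_trans Finset.card_image_le ?_
        simp
      · exact ⟨(hZ p hp).choose, Finset.mem_image.mpr ⟨⟨p, hp⟩, Finset.mem_attach _ _, rfl⟩,
          (hZ p hp).choose_spec, rfl⟩
    | insert q Q hqQ ih =>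
      intro hQ hc
      rw [Finset.card_insert_of_notMem hqQ] at hc
      obtain ⟨w', hw', J, hJ, h1, h2⟩ := ih (fun x hx => hQ (Finset.mem_insert_of_mem hx))
        (by omega)
      have hJK : J.card < (Finset.univ : Finset (Fin K)).card := by
        rw [Finset.card_univ, Fintype.card_fin]; omega
      obtain ⟨a, _, ha⟩ := Finset.exists_mem_notMem_of_card_lt_card hJK
      obtain ⟨w'', hw'', h3, h4⟩ := hH.move w' hw' a q (hQ (Finset.mem_insert_self _ _))
      refine ⟨w'', hw'', insert a J, ?_, ?_, ?_⟩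
      · rw [Finset.card_insert_of_notMem ha, Finset.card_insert_of_notMem hqQ]; omega
      · intro p hp
        rw [Finset.mem_insert] at hp
        rcases hp with rfl | hp
        · exact ⟨a, Finset.mem_insert_self _ _, h4⟩
        · obtain ⟨b, hb, hbp⟩ := h1 p hp
          refine ⟨b, Finset.mem_insert_of_mem hb, ?_⟩
          rw [h3 b (by rintro rfl; exact ha hb)]
          exact hbp
      · intro p hp
        obtain ⟨b, hb, hbp, hbw⟩ := h2 p hp
        have hba : b ≠ a := by rintro rfl; exact ha hb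
        refine ⟨b, Finset.mem_insert_of_mem hb, ?_, ?_⟩
        · rw [h3 b hba]; exact hbp
        · rw [h3 b hba]; exact hbw
  obtain ⟨w', hw', J, _, h1, h2⟩ := key Q hQ hcard
  refine ⟨w', hw', fun p hp => ?_, fun p hp => ?_⟩
  · obtain ⟨a, _, h⟩ := h1 p hp; exact ⟨a, h⟩
  · obtain ⟨a, _, h⟩ := h2 p hp; exact ⟨a, h⟩

/-- merging the order relations of two embedded parts -/
theorem merge_lt {X : α → ℤ} {X' : β → ℤ} {S A B : Finset α} (hX : Set.InjOn X S)
    (hA : A ⊆ S) (hB : B ⊆ S) (hAB : Disjoint A B) {w : Fin K → α × β}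
    (hmono : ∀ a b, X (w a).1 < X (w b).1 → X' (w a).2 < X' (w b).2) {ψ₁ ψ₂ : α → β}
    (h1 : ∀ p ∈ A, ∀ q ∈ A, X p < X q → X' (ψ₁ p) < X' (ψ₁ q))
    (h2 : ∀ p ∈ B, ∀ q ∈ B, X p < X q → X' (ψ₂ p) < X' (ψ₂ q))
    (hw1 : ∀ r s, r ∈ A → s ∈ S → s ∉ A → (Next X S r s ∨ Next X S s r) →
      ∃ a, (w a).1 = r ∧ ψ₁ r = (w a).2)
    (hw2 : ∀ r s, r ∈ B → s ∈ S → s ∉ B → (Next X S r s ∨ Next X S s r) →
      ∃ a, (w a).1 = r ∧ ψ₂ r = (w a).2)
    {p q : α} (hp : p ∈ A) (hq : q ∈ B) (hpq : X p < X q) : X' (ψ₁ p) < X' (ψ₂ q) := by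
  have hqA : q ∉ A := fun h => Finset.disjoint_left.mp hAB h hq
  obtain ⟨r, s, hr, hs, hsA, hrs, hpr, hsq⟩ := exists_next_right hX hA hp (hB hq) hqA hpq
  have hrB : r ∉ B := fun h => Finset.disjoint_left.mp hAB hr h
  have hrq : X r < X q := lt_of_lt_of_le hrs.2.2.1 hsq
  obtain ⟨s', l, hl, hs', hs'B, hsl, hlq, hrs'⟩ := exists_next_left hX hB hq (hA hr) hrB hrq
  obtain ⟨a, ha1, ha2⟩ := hw1 r s hr hs hsA (Or.inl hrs)
  obtain ⟨b, hb1, hb2⟩ := hw2 l s' hl hs' hs'B (Or.inr hsl)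
  have hrl : X r < X l := lt_of_le_of_lt hrs' hsl.2.2.1
  have e1 : X' (ψ₁ r) < X' (ψ₂ l) := by
    rw [ha2, hb2]
    apply hmono
    rw [ha1, hb1]
    exact hrl
  have e2 : X' (ψ₁ p) ≤ X' (ψ₁ r) := by
    rcases hpr.lt_or_eq with h | h
    · exact (h1 p hp r hr h).le
    · rw [hX (hA hp) (hA hr) h]
  have e3 : X' (ψ₂ l) ≤ X' (ψ₂ q) := by
    rcases hlq.lt_or_eq with h | h
    · exact (h2 l hl q hq h).le
    · rw [hX (hB hl) (hB hq) h]
  omega

/-- If the pebbles are never stuck then each decomposable set is embedded. -/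
theorem Game.embed (hH : Game X Y X' Y' S K H) (hX : Set.InjOn X S) (hY : Set.InjOn Y S)
    {g : ℕ} (hg : 1 ≤ g) (hK : 3 * g ≤ K) {A : Finset α} (hA : Dec X Y S g A) :
    ∀ w ∈ H, (∀ p ∈ bd X Y S A, ∃ a, (w a).1 = p) →
      ∃ ψ : α → β, (∀ p ∈ A, ∀ q ∈ A, X p < X q → X' (ψ p) < X' (ψ q)) ∧
        (∀ p ∈ A, ∀ q ∈ A, Y p < Y q → Y' (ψ p) < Y' (ψ q)) ∧
        ∀ a, (w a).1 ∈ bd X Y S A → ψ (w a).1 = (w a).2 := by
  classical
  have hK0 : 0 < K := by omega
  induction hA with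
  | empty =>
    intro w _ _
    exact ⟨fun _ => (w ⟨0, hK0⟩).2, by simp, by simp, fun a ha => absurd (mem_bd.mp ha).1 (by simp)⟩
  | @single p hp =>
    intro w hw hcov
    by_cases hb : p ∈ bd X Y S {p}
    · obtain ⟨a, ha⟩ := hcov p hb
      refine ⟨fun _ => (w a).2, ?_, ?_, ?_⟩
      · intro x hx y hy hxy
        rw [Finset.mem_singleton] at hx hy
        rw [hx, hy] at hxy; omega
      · intro x hx y hy hxy
        rw [Finset.mem_singleton] at hx hy
        rw [hx, hy] at hxy; omega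
      · intro b hb2
        have := (mem_bd.mp hb2).1
        rw [Finset.mem_singleton] at this
        exact hH.cons w hw a b (by rw [ha, this])
    · refine ⟨fun _ => (w ⟨0, hK0⟩).2, ?_, ?_, ?_⟩
      · intro x hx y hy hxy
        rw [Finset.mem_singleton] at hx hy
        rw [hx, hy] at hxy; omega
      · intro x hx y hy hxy
        rw [Finset.mem_singleton] at hx hy
        rw [hx, hy] at hxy; omega
      · intro b hb2
        have := (mem_bd.mp hb2).1
        rw [Finset.mem_singleton] at this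
        rw [this] at hb2
        exact absurd hb2 hb
  | @union A B hA hB hAB hcard ihA ihB =>
    intro w hw hcov
    have cA := hA.card_bd hg
    have cB := hB.card_bd hg
    have hAS := hA.subset
    have hBS := hB.subset
    have hbA : bd X Y S A ⊆ S := fun x hx => hAS (mem_bd.mp hx).1
    have hbB : bd X Y S B ⊆ S := fun x hx => hBS (mem_bd.mp hx).1
    have hcu := Finset.card_union_le (bd X Y S A) (bd X Y S B)
    obtain ⟨w', hw', hQ, hZ⟩ := hH.place hw hcov
      (Finset.union_subset hbA hbB) (by omega)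
    obtain ⟨ψ₁, h1X, h1Y, h1w⟩ := ihA w' hw' (fun p hp => hQ p (Finset.mem_union_left _ hp))
    obtain ⟨ψ₂, h2X, h2Y, h2w⟩ := ihB w' hw' (fun p hp => hQ p (Finset.mem_union_right _ hp))
    have hw1 : ∀ r ∈ bd X Y S A, ∃ a, (w' a).1 = r ∧ ψ₁ r = (w' a).2 := by
      intro r hr
      obtain ⟨a, ha⟩ := hQ r (Finset.mem_union_left _ hr)
      exact ⟨a, ha, by rw [← h1w a (ha ▸ hr), ha]⟩
    have hw2 : ∀ r ∈ bd X Y S B, ∃ a, (w' a).1 = r ∧ ψ₂ r = (w' a).2 := by
      intro r hr
      obtain ⟨a, ha⟩ := hQ r (Finset.mem_union_right _ hr)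
      exact ⟨a, ha, by rw [← h2w a (ha ▸ hr), ha]⟩
    have hnA : ∀ p ∈ B, p ∉ A := fun p hp h => Finset.disjoint_left.mp hAB h hp
    refine ⟨fun p => if p ∈ A then ψ₁ p else ψ₂ p, ?_, ?_, ?_⟩
    · intro p hp q hq hpq
      rw [Finset.mem_union] at hp hq
      beta_reduce
      rcases hp with hp | hp <;> rcases hq with hq | hq
      · rw [if_pos hp, if_pos hq]; exact h1X p hp q hq hpq
      · rw [if_pos hp, if_neg (hnA q hq)]
        exact merge_lt hX hAS hBS hAB (hH.monoX w' hw') h1X h2X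
          (fun r s hr hs hsA h => hw1 r (mem_bd.mpr ⟨hr, s, hs, hsA, by
            rcases h with h | h
            · exact Or.inl h
            · exact Or.inr (Or.inl h)⟩))
          (fun r s hr hs hsA h => hw2 r (mem_bd.mpr ⟨hr, s, hs, hsA, by
            rcases h with h | h
            · exact Or.inl h
            · exact Or.inr (Or.inl h)⟩)) hp hq hpq
      · rw [if_neg (hnA p hp), if_pos hq]
        exact merge_lt hX hBS hAS hAB.symm (hH.monoX w' hw') h2X h1X
          (fun r s hr hs hsA h => hw2 r (mem_bd.mpr ⟨hr, s, hs, hsA, by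
            rcases h with h | h
            · exact Or.inl h
            · exact Or.inr (Or.inl h)⟩))
          (fun r s hr hs hsA h => hw1 r (mem_bd.mpr ⟨hr, s, hs, hsA, by
            rcases h with h | h
            · exact Or.inl h
            · exact Or.inr (Or.inl h)⟩)) hp hq hpq
      · rw [if_neg (hnA p hp), if_neg (hnA q hq)]; exact h2X p hp q hq hpq
    · intro p hp q hq hpq
      rw [Finset.mem_union] at hp hq
      beta_reduce
      rcases hp with hp | hp <;> rcases hq with hq | hq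
      · rw [if_pos hp, if_pos hq]; exact h1Y p hp q hq hpq
      · rw [if_pos hp, if_neg (hnA q hq)]
        exact merge_lt hY hAS hBS hAB (hH.monoY w' hw') h1Y h2Y
          (fun r s hr hs hsA h => hw1 r (mem_bd.mpr ⟨hr, s, hs, hsA, Or.inr (Or.inr h)⟩))
          (fun r s hr hs hsA h => hw2 r (mem_bd.mpr ⟨hr, s, hs, hsA, Or.inr (Or.inr h)⟩)) hp hq hpq
      · rw [if_neg (hnA p hp), if_pos hq]
        exact merge_lt hY hBS hAS hAB.symm (hH.monoY w' hw') h2Y h1Y
          (fun r s hr hs hsA h => hw2 r (mem_bd.mpr ⟨hr, s, hs, hsA, Or.inr (Or.inr h)⟩))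
          (fun r s hr hs hsA h => hw1 r (mem_bd.mpr ⟨hr, s, hs, hsA, Or.inr (Or.inr h)⟩)) hp hq hpq
      · rw [if_neg (hnA p hp), if_neg (hnA q hq)]; exact h2Y p hp q hq hpq
    · intro a ha
      obtain ⟨b, hb1, hb2⟩ := hZ _ ha
      have hab : (w a).2 = (w b).2 := hH.cons w hw a b (by rw [← hb2, hb1])
      beta_reduce
      rcases Finset.mem_union.mp (mem_bd.mp ha).1 with h | h
      · rw [if_pos h, hab, ← hb2, ← hb1]
        exact h1w b (by rw [hb1]; exact bd_union_left ha h)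
      · rw [if_neg (hnA _ h), hab, ← hb2, ← hb1]
        exact h2w b (by rw [hb1]; exact bd_union_right ha h)

end Pool.Agent.PPM
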