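import Mathlib
import Pool.Agent.Lib_helper89.PPM.Dec

/-!
# Superposed staircases at several scales

Arcs `(j, i)`: scale `j < k`, index `i`. The arc joins the locations `(2i+1) h_j` and
`(2i+3) h_j` of a line, where `h_j = (2R)^(k-j)`. One end is the horizontal, the other one the
vertical coordinate of a point. Any set of fewer than `R` arcs has a hierarchical decomposition
with a bounded number of boundary points.
-/

set_option autoImplicit false

namespace Pool.Agent.PPM

/-- half of the length of the arcs of scale `j` -/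
def hh (k R j : ℕ) : ℤ := ((2 * R : ℕ) : ℤ) ^ (k - j)

/-- left end -/
def lo (k R : ℕ) (p : ℕ × ℕ) : ℤ := (2 * (p.2 : ℤ) + 1) * hh k R p.1

/-- right end -/
def hi (k R : ℕ) (p : ℕ × ℕ) : ℤ := (2 * (p.2 : ℤ) + 3) * hh k R p.1

/-- horizontal location -/
def lx (k R : ℕ) (p : ℕ × ℕ) : ℤ := (4 * ((p.2 / 2 : ℕ) : ℤ) + 3) * hh k R p.1

/-- vertical location -/
def ly (k R : ℕ) (p : ℕ × ℕ) : ℤ := (4 * (((p.2 + 1) / 2 : ℕ) : ℤ) + 1) * hh k R p.1

/-- horizontal coordinate -/
def cx (k R : ℕ) (p : ℕ × ℕ) : ℤ := 2 * lx k R p + ((p.2 % 2 : ℕ) : ℤ)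

/-- vertical coordinate -/
def cy (k R : ℕ) (p : ℕ × ℕ) : ℤ := 2 * ly k R p + (((p.2 + 1) % 2 : ℕ) : ℤ)

section basic

variable {k R : ℕ}

theorem hh_pos (hR : 0 < R) (j : ℕ) : 0 < hh k R j := by
  unfold hh; positivity

theorem hh_succ {j : ℕ} (hj : j < k) : hh k R j = 2 * R * hh k R (j + 1) := by
  unfold hh
  have : k - j = (k - (j + 1)) + 1 := by omega
  rw [this, pow_succ]
  push_cast
  ring

theorem hh_add {j d : ℕ} (hj : j + d ≤ k) : hh k R j = (2 * (R : ℤ)) ^ d * hh k R (j + d) := by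
  unfold hh
  have : k - j = d + (k - (j + d)) := by omega
  rw [this, pow_add]
  push_cast
  ring

/-- odd multiples of lengths of different scales are different -/
theorem odd_ne (hR : 0 < R) {j j' : ℕ} (hjj : j < j') (hj' : j' ≤ k) (a b : ℤ) :
    (2 * a + 1) * hh k R j ≠ (2 * b + 1) * hh k R j' := by
  obtain ⟨d, rfl⟩ : ∃ d, j' = j + (d + 1) := ⟨j' - j - 1, by omega⟩
  rw [hh_add (d := d + 1) hj', ← mul_assoc]
  intro h
  have h2 := mul_right_cancel₀ (hh_pos hR (j + (d + 1))).ne' h
  rw [pow_succ] at h2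
  have h3 : (2 * a + 1) * ((2 * (R : ℤ)) ^ d * (2 * R)) =
      2 * ((2 * a + 1) * ((2 * (R : ℤ)) ^ d * R)) := by ring
  omega

theorem odd_inj (hR : 0 < R) {j j' : ℕ} (hj : j ≤ k) (hj' : j' ≤ k) {a b : ℤ}
    (h : (2 * a + 1) * hh k R j = (2 * b + 1) * hh k R j') : j = j' ∧ a = b := by
  rcases lt_trichotomy j j' with h1 | h1 | h1
  · exact absurd h (odd_ne hR h1 hj' a b)
  · subst h1
    have := mul_right_cancel₀ (hh_pos hR j).ne' h
    exact ⟨rfl, by omega⟩
  · exact absurd h.symm (odd_ne hR h1 hj b a)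

theorem lo_lt_hi (hR : 0 < R) (p : ℕ × ℕ) : lo k R p < hi k R p := by
  have := hh_pos (k := k) hR p.1
  unfold lo hi
  nlinarith

theorem hi_sub_lo (p : ℕ × ℕ) : hi k R p - lo k R p = 2 * hh k R p.1 := by
  unfold lo hi; ring

theorem lo_inj (hR : 0 < R) {p q : ℕ × ℕ} (hp : p.1 < k) (hq : q.1 < k)
    (h : lo k R p = lo k R q) : p = q := by
  have := odd_inj hR hp.le hq.le h
  exact Prod.ext this.1 (by omega)

theorem hi_inj (hR : 0 < R) {p q : ℕ × ℕ} (hp : p.1 < k) (hq : q.1 < k)
    (h : hi k R p = hi k R q) : p = q := by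
  have h' : (2 * ((p.2 : ℤ) + 1) + 1) * hh k R p.1 = (2 * ((q.2 : ℤ) + 1) + 1) * hh k R q.1 := by
    unfold hi at h
    convert h using 2 <;> ring
  have := odd_inj hR hp.le hq.le h'
  exact Prod.ext this.1 (by omega)

/-- the two locations are the two ends, in one of the two orders -/
theorem ends (p : ℕ × ℕ) :
    (lx k R p = hi k R p ∧ ly k R p = lo k R p ∧ p.2 % 2 = 0) ∨
    (lx k R p = lo k R p ∧ ly k R p = hi k R p ∧ p.2 % 2 = 1) := by
  rcases Nat.mod_two_eq_zero_or_one p.2 with h | h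
  · left
    obtain ⟨v, hv⟩ : ∃ v, p.2 = 2 * v := ⟨p.2 / 2, by omega⟩
    have e1 : p.2 / 2 = v := by omega
    have e2 : (p.2 + 1) / 2 = v := by omega
    have e3 : (p.2 : ℤ) = 2 * v := by exact_mod_cast hv
    refine ⟨?_, ?_, h⟩
    · unfold lx hi; rw [e1, e3]; ring
    · unfold ly lo; rw [e2, e3]; ring
  · right
    obtain ⟨v, hv⟩ : ∃ v, p.2 = 2 * v + 1 := ⟨p.2 / 2, by omega⟩
    have e1 : p.2 / 2 = v := by omega
    have e2 : (p.2 + 1) / 2 = v + 1 := by omega
    have e3 : (p.2 : ℤ) = 2 * v + 1 := by exact_mod_cast hv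
    refine ⟨?_, ?_, h⟩
    · unfold lx lo; rw [e1, e3]; ring
    · unfold ly hi; rw [e2, e3]; push_cast; ring

theorem cx_injOn (hR : 0 < R) : Set.InjOn (cx k R) {p | p.1 < k} := by
  intro p hp q hq h
  unfold cx at h
  have hl : lx k R p = lx k R q := by omega
  have hm : p.2 % 2 = q.2 % 2 := by omega
  have hl' : (2 * (2 * ((p.2 / 2 : ℕ) : ℤ) + 1) + 1) * hh k R p.1 =
      (2 * (2 * ((q.2 / 2 : ℕ) : ℤ) + 1) + 1) * hh k R q.1 := by
    unfold lx at hl
    convert hl using 2 <;> ring
  have := odd_inj hR (le_of_lt hp) (le_of_lt hq) hl'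
  exact Prod.ext this.1 (by omega)

theorem cy_injOn (hR : 0 < R) : Set.InjOn (cy k R) {p | p.1 < k} := by
  intro p hp q hq h
  unfold cy at h
  have hl : ly k R p = ly k R q := by omega
  have hm : (p.2 + 1) % 2 = (q.2 + 1) % 2 := by omega
  have hl' : (2 * (2 * (((p.2 + 1) / 2 : ℕ) : ℤ)) + 1) * hh k R p.1 =
      (2 * (2 * (((q.2 + 1) / 2 : ℕ) : ℤ)) + 1) * hh k R q.1 := by
    unfold ly at hl
    convert hl using 2 <;> ring
  have := odd_inj hR (le_of_lt hp) (le_of_lt hq) hl'
  exact Prod.ext this.1 (by omega)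

end basic

/-! ### boundaries of intervals -/

section bdry

variable {α : Type*}

open Classical in
theorem card_cut_left {X : α → ℤ} {S : Finset α} (hX : Set.InjOn X S) (θ : ℤ) :
    (S.filter fun p => X p < θ ∧ ∃ q ∈ S, θ ≤ X q ∧ Next X S p q).card ≤ 1 := by
  rw [Finset.card_le_one]
  intro p hp p' hp'
  simp only [Finset.mem_filter] at hp hp'
  obtain ⟨hpS, hpθ, q, hq, hqθ, h⟩ := hp
  obtain ⟨hpS', hpθ', q', hq', hqθ', h'⟩ := hp'
  have e1 := h.2.2.2 p' hpS'
  have e2 := h'.2.2.2 p hpS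
  exact hX hpS hpS' (by omega)

open Classical in
theorem card_cut_right {X : α → ℤ} {S : Finset α} (hX : Set.InjOn X S) (θ : ℤ) :
    (S.filter fun p => θ ≤ X p ∧ ∃ q ∈ S, X q < θ ∧ Next X S q p).card ≤ 1 := by
  rw [Finset.card_le_one]
  intro p hp p' hp'
  simp only [Finset.mem_filter] at hp hp'
  obtain ⟨hpS, hpθ, q, hq, hqθ, h⟩ := hp
  obtain ⟨hpS', hpθ', q', hq', hqθ', h'⟩ := hp'
  have e1 := h.2.2.2 p' hpS'
  have e2 := h'.2.2.2 p hpS
  exact hX hpS hpS' (by omega)

open Classical in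
theorem card_nbr {X Y : α → ℤ} {S : Finset α} (hX : Set.InjOn X S) (hY : Set.InjOn Y S) (q : α) :
    (S.filter fun p => Nbr X Y S p q).card ≤ 4 := by
  have h1 : ∀ Z : α → ℤ, Set.InjOn Z S → (S.filter fun p => Next Z S p q).card ≤ 1 := by
    intro Z hZ
    rw [Finset.card_le_one]
    intro p hp p' hp'
    simp only [Finset.mem_filter] at hp hp'
    have e1 := hp.2.2.2.2 p' hp'.1
    have e2 := hp'.2.2.2.2 p hp.1
    have e3 := hp.2.2.2.1
    have e4 := hp'.2.2.2.1
    exact hZ hp.1 hp'.1 (by omega)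
  have h2 : ∀ Z : α → ℤ, Set.InjOn Z S → (S.filter fun p => Next Z S q p).card ≤ 1 := by
    intro Z hZ
    rw [Finset.card_le_one]
    intro p hp p' hp'
    simp only [Finset.mem_filter] at hp hp'
    have e1 := hp.2.2.2.2 p' hp'.1
    have e2 := hp'.2.2.2.2 p hp.1
    have e3 := hp.2.2.2.1
    have e4 := hp'.2.2.2.1
    exact hZ hp.1 hp'.1 (by omega)
  have hsub : (S.filter fun p => Nbr X Y S p q) ⊆
      ((S.filter fun p => Next X S p q) ∪ (S.filter fun p => Next X S q p)) ∪
      ((S.filter fun p => Next Y S p q) ∪ (S.filter fun p => Next Y S q p)) := by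
    intro p hp
    simp only [Finset.mem_filter, Nbr, Finset.mem_union] at hp ⊢
    tauto
  have := Finset.card_le_card hsub
  have a1 := h1 X hX
  have a2 := h2 X hX
  have a3 := h1 Y hY
  have a4 := h2 Y hY
  have b1 := Finset.card_union_le ((S.filter fun p => Next X S p q) ∪
    (S.filter fun p => Next X S q p)) ((S.filter fun p => Next Y S p q) ∪
    (S.filter fun p => Next Y S q p))
  have b2 := Finset.card_union_le (S.filter fun p => Next X S p q)
    (S.filter fun p => Next X S q p)
  have b3 := Finset.card_union_le (S.filter fun p => Next Y S p q)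
    (S.filter fun p => Next Y S q p)
  omega

end bdry

/-! ### intervals of the line -/

section intervals

variable {k R : ℕ}

/-- arcs of `S` inside `[a, c)` -/
def Ins (k R : ℕ) (S : Finset (ℕ × ℕ)) (a c : ℤ) : Finset (ℕ × ℕ) :=
  S.filter fun p => a ≤ lo k R p ∧ hi k R p < c

theorem mem_Ins {S : Finset (ℕ × ℕ)} {a c : ℤ} {p : ℕ × ℕ} :
    p ∈ Ins k R S a c ↔ p ∈ S ∧ a ≤ lo k R p ∧ hi k R p < c := by
  simp [Ins]

/-- arcs of `S` with exactly one end in `[a, c)` -/
def Cr (k R : ℕ) (S : Finset (ℕ × ℕ)) (a c : ℤ) : Finset (ℕ × ℕ) :=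
  S.filter fun p => (a ≤ lo k R p ∧ lo k R p < c ∧ c ≤ hi k R p) ∨
    (lo k R p < a ∧ a ≤ hi k R p ∧ hi k R p < c)

open Classical in
theorem card_bd_Ins (hR : 0 < R) {S : Finset (ℕ × ℕ)} (hS : ∀ p ∈ S, p.1 < k) (a c : ℤ) :
    (bd (cx k R) (cy k R) S (Ins k R S a c)).card ≤ 4 * (Cr k R S a c).card + 4 := by
  have hX : Set.InjOn (cx k R) S := (cx_injOn hR).mono fun p hp => hS p hp
  have hY : Set.InjOn (cy k R) S := (cy_injOn hR).mono fun p hp => hS p hp
  set E1 := S.filter fun p => cx k R p < 2 * c ∧ ∃ q ∈ S, 2 * c ≤ cx k R q ∧ Next (cx k R) S p q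
  set E2 := S.filter fun p => 2 * a ≤ cx k R p ∧ ∃ q ∈ S, cx k R q < 2 * a ∧ Next (cx k R) S q p
  set E3 := S.filter fun p => cy k R p < 2 * c ∧ ∃ q ∈ S, 2 * c ≤ cy k R q ∧ Next (cy k R) S p q
  set E4 := S.filter fun p => 2 * a ≤ cy k R p ∧ ∃ q ∈ S, cy k R q < 2 * a ∧ Next (cy k R) S q p
  set N := (Cr k R S a c).biUnion fun q => S.filter fun p => Nbr (cx k R) (cy k R) S p q
  have hsub : bd (cx k R) (cy k R) S (Ins k R S a c) ⊆ N ∪ ((E1 ∪ E2) ∪ (E3 ∪ E4)) := by
    intro p hp
    rw [mem_bd] at hp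
    obtain ⟨hpI, q, hq, hqI, hn⟩ := hp
    rw [mem_Ins] at hpI hqI
    obtain ⟨hpS, hpa, hpc⟩ := hpI
    have hlp := lo_lt_hi (k := k) hR p
    have hlq := lo_lt_hi (k := k) hR q
    by_cases hqC : q ∈ Cr k R S a c
    · apply Finset.mem_union_left
      rw [Finset.mem_biUnion]
      exact ⟨q, hqC, Finset.mem_filter.mpr ⟨hpS, hn⟩⟩
    apply Finset.mem_union_right
    have hq2 : (c ≤ lo k R q ∨ lo k R q < a) ∧ (c ≤ hi k R q ∨ hi k R q < a) := by
      simp only [Cr, Finset.mem_filter] at hqC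
      have h3 : ¬ (a ≤ lo k R q ∧ hi k R q < c) := fun h => hqI ⟨hq, h⟩
      have h4 : ¬ ((a ≤ lo k R q ∧ lo k R q < c ∧ c ≤ hi k R q) ∨
        (lo k R q < a ∧ a ≤ hi k R q ∧ hi k R q < c)) := fun h => hqC ⟨hq, h⟩
      omega
    have hxp : 2 * a ≤ cx k R p ∧ cx k R p < 2 * c ∧ 2 * a ≤ cy k R p ∧ cy k R p < 2 * c := by
      have := Nat.mod_lt p.2 (show 0 < 2 by norm_num)
      have := Nat.mod_lt (p.2 + 1) (show 0 < 2 by norm_num)
      unfold cx cy
      rcases ends (k := k) (R := R) p with ⟨h1, h2, _⟩ | ⟨h1, h2, _⟩ <;> rw [h1, h2] <;> omega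
    have hxq : (cx k R q < 2 * a ∨ 2 * c ≤ cx k R q) ∧ (cy k R q < 2 * a ∨ 2 * c ≤ cy k R q) := by
      have := Nat.mod_lt q.2 (show 0 < 2 by norm_num)
      have := Nat.mod_lt (q.2 + 1) (show 0 < 2 by norm_num)
      unfold cx cy
      rcases ends (k := k) (R := R) q with ⟨h1, h2, _⟩ | ⟨h1, h2, _⟩ <;> rw [h1, h2] <;> omega
    obtain ⟨x1, x2, y1, y2⟩ := hxp
    obtain ⟨xq, yq⟩ := hxq
    rcases hn with h | h | h | h
    · refine Finset.mem_union_left _ (Finset.mem_union_left _ ?_)
      exact Finset.mem_filter.mpr ⟨hpS, x2, q, hq, by have := h.2.2.1; omega, h⟩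
    · refine Finset.mem_union_left _ (Finset.mem_union_right _ ?_)
      exact Finset.mem_filter.mpr ⟨hpS, x1, q, hq, by have := h.2.2.1; omega, h⟩
    · refine Finset.mem_union_right _ (Finset.mem_union_left _ ?_)
      exact Finset.mem_filter.mpr ⟨hpS, y2, q, hq, by have := h.2.2.1; omega, h⟩
    · refine Finset.mem_union_right _ (Finset.mem_union_right _ ?_)
      exact Finset.mem_filter.mpr ⟨hpS, y1, q, hq, by have := h.2.2.1; omega, h⟩
  have c0 := Finset.card_le_card hsub
  have c1 : E1.card ≤ 1 := card_cut_left hX _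
  have c2 : E2.card ≤ 1 := card_cut_right hX _
  have c3 : E3.card ≤ 1 := card_cut_left hY _
  have c4 : E4.card ≤ 1 := card_cut_right hY _
  have c5 : N.card ≤ (Cr k R S a c).card * 4 :=
    Finset.card_biUnion_le_card_mul _ _ _ fun q _ => card_nbr hX hY q
  have d1 := Finset.card_union_le N ((E1 ∪ E2) ∪ (E3 ∪ E4))
  have d2 := Finset.card_union_le (E1 ∪ E2) (E3 ∪ E4)
  have d3 := Finset.card_union_le E1 E2
  have d4 := Finset.card_union_le E3 E4
  omega

/-- A block contains a cut point covered by no arc of a smaller scale. -/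
theorem exists_cut (hR : 0 < R) {S : Finset (ℕ × ℕ)} (hS : ∀ p ∈ S, p.1 < k) (hcard : S.card < R)
    {j : ℕ} (hj : j < k) (u : ℤ) :
    ∃ c, u < c ∧ c ≤ u + hh k R j ∧ ∀ p ∈ S, j < p.1 → ¬ (lo k R p < c ∧ c ≤ hi k R p) := by
  have hpos := hh_pos (k := k) hR j
  set U := (S.filter fun p => j < p.1).biUnion fun p => Finset.Ioc (lo k R p) (hi k R p)
  have hU : U.card < (Finset.Ioc u (u + hh k R j)).card := by
    have h1 : U.card ≤ (S.filter fun p => j < p.1).card * (2 * hh k R (j + 1)).toNat := by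
      apply Finset.card_biUnion_le_card_mul
      intro p hp
      rw [Finset.mem_filter] at hp
      rw [Int.card_Ioc, hi_sub_lo]
      apply Int.toNat_le_toNat
      obtain ⟨d, hd⟩ : ∃ d, p.1 = (j + 1) + d := ⟨p.1 - (j + 1), by omega⟩
      have hle : (j + 1) + d ≤ k := by have := hS p hp.1; omega
      have := hh_add (R := R) hle
      have hR1 : (1 : ℤ) ≤ R := by exact_mod_cast hR
      have h2 : 1 ≤ (2 * (R : ℤ)) ^ d := one_le_pow₀ (by omega)
      have h3 := hh_pos (k := k) hR ((j + 1) + d)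
      rw [hd]
      nlinarith
    have h2 : (S.filter fun p => j < p.1).card ≤ S.card := Finset.card_filter_le _ _
    rw [Int.card_Ioc, add_sub_cancel_left, hh_succ hj]
    have h3 := hh_pos (k := k) hR (j + 1)
    have h4 : (2 * (R : ℤ) * hh k R (j + 1)).toNat = R * (2 * hh k R (j + 1)).toNat := by
      have e : 2 * (R : ℤ) * hh k R (j + 1) = ((R * (2 * hh k R (j + 1)).toNat : ℕ) : ℤ) := by
        push_cast
        rw [Int.toNat_of_nonneg (by omega)]
        ring
      rw [e, Int.toNat_natCast]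
    rw [h4]
    refine lt_of_le_of_lt h1 ?_
    have h5 : 0 < (2 * hh k R (j + 1)).toNat := by omega
    exact Nat.mul_lt_mul_of_pos_right (by omega) h5
  obtain ⟨c, hc, hcU⟩ := Finset.exists_mem_notMem_of_card_lt_card hU
  rw [Finset.mem_Ioc] at hc
  refine ⟨c, hc.1, hc.2, fun p hp hjp hcov => hcU ?_⟩
  rw [Finset.mem_biUnion]
  exact ⟨p, Finset.mem_filter.mpr ⟨hp, hjp⟩, Finset.mem_Ioc.mpr hcov⟩

/-- locations of arcs of scale `< j` -/
def Loc (k R j : ℕ) (u : ℤ) : Prop := ∃ j' < j, ∃ z : ℤ, u = (2 * z + 1) * hh k R j'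

theorem Loc.of_lo {j : ℕ} {p : ℕ × ℕ} (hp : p.1 < j) : Loc k R j (lo k R p) :=
  ⟨p.1, hp, p.2, rfl⟩

theorem Loc.of_hi {j : ℕ} {p : ℕ × ℕ} (hp : p.1 < j) : Loc k R j (hi k R p) :=
  ⟨p.1, hp, p.2 + 1, by unfold hi; ring⟩

theorem Loc.dvd {j : ℕ} (hj : j < k) {u : ℤ} (h : Loc k R (j + 1) u) :
    ∃ z : ℤ, u = z * hh k R j := by
  obtain ⟨j', hj', z, rfl⟩ := h
  obtain ⟨d, rfl⟩ : ∃ d, j = j' + d := ⟨j - j', by omega⟩
  refine ⟨(2 * z + 1) * (2 * (R : ℤ)) ^ d, ?_⟩
  rw [hh_add (d := d) hj.le]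
  ring

theorem card_Cr_le (hR : 0 < R) {S : Finset (ℕ × ℕ)} (hS : ∀ p ∈ S, p.1 < k) {j : ℕ} {a c e : ℤ}
    (hec : e ≤ c)
    (ha : ∀ p ∈ S, j ≤ p.1 → ¬ (lo k R p < a ∧ a ≤ hi k R p))
    (he : ∀ p ∈ S, j < p.1 → ¬ (lo k R p < e ∧ e ≤ hi k R p))
    (hsing : ∀ u v, a ≤ u → u < c → a ≤ v → v < c → Loc k R j u → Loc k R j v → u = v) :
    (Cr k R S a e).card ≤ 3 := by
  classical
  set F1 := S.filter fun p => p.1 = j ∧ lo k R p < e ∧ e ≤ hi k R p
  set F2 := S.filter fun p => p.1 < j ∧ a ≤ lo k R p ∧ lo k R p < c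
  set F3 := S.filter fun p => p.1 < j ∧ a ≤ hi k R p ∧ hi k R p < c
  have hsub : Cr k R S a e ⊆ F1 ∪ (F2 ∪ F3) := by
    intro p hp
    simp only [Cr, Finset.mem_filter] at hp
    obtain ⟨hpS, hp2⟩ := hp
    have hl := lo_lt_hi (k := k) hR p
    rcases lt_trichotomy p.1 j with h | h | h
    · apply Finset.mem_union_right
      rcases hp2 with h2 | h2
      · exact Finset.mem_union_left _ (Finset.mem_filter.mpr ⟨hpS, h, h2.1, by omega⟩)
      · exact Finset.mem_union_right _ (Finset.mem_filter.mpr ⟨hpS, h, h2.2.1, by omega⟩)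
    · apply Finset.mem_union_left
      rcases hp2 with h2 | h2
      · exact Finset.mem_filter.mpr ⟨hpS, h, h2.2.1, h2.2.2⟩
      · exact absurd ⟨h2.1, h2.2.1⟩ (ha p hpS h.ge)
    · exfalso
      rcases hp2 with h2 | h2
      · exact he p hpS h ⟨h2.2.1, h2.2.2⟩
      · exact ha p hpS h.le ⟨h2.1, h2.2.1⟩
  have c1 : F1.card ≤ 1 := by
    rw [Finset.card_le_one]
    intro p hp q hq
    simp only [F1, Finset.mem_filter] at hp hq
    obtain ⟨_, hpj, hp1, hp2⟩ := hp
    obtain ⟨_, hqj, hq1, hq2⟩ := hq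
    unfold lo at hp1 hq1
    unfold hi at hp2 hq2
    rw [hpj] at hp1 hp2
    rw [hqj] at hq1 hq2
    have hpos := hh_pos (k := k) hR j
    have e1 : (2 * (p.2 : ℤ) + 1) < 2 * q.2 + 3 := by
      by_contra hcon
      push Not at hcon
      have := mul_le_mul_of_nonneg_right hcon hpos.le
      omega
    have e2 : (2 * (q.2 : ℤ) + 1) < 2 * p.2 + 3 := by
      by_contra hcon
      push Not at hcon
      have := mul_le_mul_of_nonneg_right hcon hpos.le
      omega
    exact Prod.ext (hpj.trans hqj.symm) (by omega)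
  have c2 : F2.card ≤ 1 := by
    rw [Finset.card_le_one]
    intro p hp q hq
    simp only [F2, Finset.mem_filter] at hp hq
    exact lo_inj hR (hS p hp.1) (hS q hq.1) (hsing _ _ hp.2.2.1 hp.2.2.2 hq.2.2.1 hq.2.2.2
      (Loc.of_lo hp.2.1) (Loc.of_lo hq.2.1))
  have c3 : F3.card ≤ 1 := by
    rw [Finset.card_le_one]
    intro p hp q hq
    simp only [F3, Finset.mem_filter] at hp hq
    exact hi_inj hR (hS p hp.1) (hS q hq.1) (hsing _ _ hp.2.2.1 hp.2.2.2 hq.2.2.1 hq.2.2.2
      (Loc.of_hi hp.2.1) (Loc.of_hi hq.2.1))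
  have d0 := Finset.card_le_card hsub
  have d1 := Finset.card_union_le F1 (F2 ∪ F3)
  have d2 := Finset.card_union_le F2 F3
  omega

/-- The main recursion over the scales. -/
theorem dec_Ins (hR : 0 < R) {S : Finset (ℕ × ℕ)} (hS : ∀ p ∈ S, p.1 < k) (hcard : S.card < R)
    (d : ℕ) : ∀ (j : ℕ), j + d = k → ∀ a c : ℤ, a ≤ c →
    (∀ p ∈ S, j ≤ p.1 → ¬ (lo k R p < a ∧ a ≤ hi k R p)) →
    (∀ p ∈ S, j ≤ p.1 → ¬ (lo k R p < c ∧ c ≤ hi k R p)) →
    (∀ u v, a ≤ u → u < c → a ≤ v → v < c → Loc k R j u → Loc k R j v → u = v) →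
    Dec (cx k R) (cy k R) S 17 (Ins k R S a c) := by
  induction d with
  | zero =>
    intro j hj a c hac _ _ hsing
    have : Ins k R S a c = ∅ := by
      rw [Finset.eq_empty_iff_forall_notMem]
      intro p hp
      rw [mem_Ins] at hp
      have hpk := hS p hp.1
      have hl := lo_lt_hi (k := k) hR p
      have := hsing _ _ hp.2.1 (by omega) (by omega) hp.2.2
        (Loc.of_lo (p := p) (by omega)) (Loc.of_hi (p := p) (by omega))
      omega
    rw [this]
    exact Dec.empty
  | succ d ih =>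
    intro j hj a c hac ha hc hsing
    have hjk : j < k := by omega
    have hpos := hh_pos (k := k) hR j
    choose cc hc1 hc2 hc3 using fun z : ℤ => exists_cut hR hS hcard hjk (z * hh k R j)
    -- the clamped cut points
    let e : ℤ → ℤ := fun z => min c (max a (cc z))
    have hmono : ∀ z, cc z ≤ cc (z + 1) := by
      intro z
      have h1 := hc2 z
      have h2 := hc1 (z + 1)
      have : (z + 1) * hh k R j = z * hh k R j + hh k R j := by ring
      omega
    have he_le : ∀ z, a ≤ e z ∧ e z ≤ c ∧ e z ≤ e (z + 1) := by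
      intro z
      have := hmono z
      simp only [e]
      omega
    have he_cov : ∀ z, ∀ p ∈ S, j < p.1 → ¬ (lo k R p < e z ∧ e z ≤ hi k R p) := by
      intro z p hp hjp
      have h3 := hc3 z p hp hjp
      have h4 := ha p hp hjp.le
      have h5 := hc p hp hjp.le
      rcases le_total (max a (cc z)) c with h | h
      · rcases le_total a (cc z) with h' | h'
        · have : e z = cc z := by simp only [e]; omega
          rwa [this]
        · have : e z = a := by simp only [e]; omega
          rwa [this]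
      · have : e z = c := by simp only [e]; omega
        rwa [this]
    have hstep : ∀ z, Dec (cx k R) (cy k R) S 17 (Ins k R S a (e z)) →
        Dec (cx k R) (cy k R) S 17 (Ins k R S a (e (z + 1))) := by
      intro z hdec
      obtain ⟨h1, h2, h3⟩ := he_le z
      obtain ⟨h1', h2', _⟩ := he_le (z + 1)
      have hblock : Dec (cx k R) (cy k R) S 17 (Ins k R S (e z) (e (z + 1))) := by
        apply ih (j + 1) (by omega) _ _ h3
        · intro p hp hjp; exact he_cov z p hp (by omega)
        · intro p hp hjp; exact he_cov (z + 1) p hp (by omega)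
        · intro u v hu1 hu2 hv1 hv2 hLu hLv
          have key : ∀ u, e z ≤ u → u < e (z + 1) → Loc k R (j + 1) u →
              u = (z + 1) * hh k R j := by
            intro u hu1 hu2 hLu
            obtain ⟨y, hy⟩ := hLu.dvd hjk
            have g1 := hc1 z
            have g2 := hc2 (z + 1)
            have g3 : z * hh k R j < u := by
              simp only [e] at hu1 hu2
              omega
            have g4 : u < (z + 1) * hh k R j + hh k R j := by
              simp only [e] at hu1 hu2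
              omega
            have g5 : z < y := by
              by_contra hcon
              push Not at hcon
              have := mul_le_mul_of_nonneg_right hcon hpos.le
              omega
            have g6 : y < z + 2 := by
              by_contra hcon
              push Not at hcon
              have := mul_le_mul_of_nonneg_right hcon hpos.le
              have : (z + 2) * hh k R j = (z + 1) * hh k R j + hh k R j := by ring
              omega
            have : y = z + 1 := by omega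
            rw [hy, this]
          rw [key u hu1 hu2 hLu, key v hv1 hv2 hLv]
      -- arcs across the cut
      set Q := S.filter fun p => a ≤ lo k R p ∧ lo k R p < e z ∧ e z ≤ hi k R p ∧
        hi k R p < e (z + 1)
      have hQj : ∀ p ∈ Q, p.1 = j := by
        intro p hp
        simp only [Q, Finset.mem_filter] at hp
        obtain ⟨hpS, q1, q2, q3, q4⟩ := hp
        rcases lt_trichotomy p.1 j with h | h | h
        · have := hsing _ _ q1 (by omega) (by omega) (by omega)
            (Loc.of_lo (p := p) h) (Loc.of_hi (p := p) h)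
          omega
        · exact h
        · exact absurd ⟨q2, q3⟩ (he_cov z p hpS h)
      have hQcard : Q.card ≤ 1 := by
        rw [Finset.card_le_one]
        intro p hp q hq
        have hpj := hQj p hp
        have hqj := hQj q hq
        simp only [Q, Finset.mem_filter] at hp hq
        obtain ⟨_, _, hp1, hp2, _⟩ := hp
        obtain ⟨_, _, hq1, hq2, _⟩ := hq
        unfold lo at hp1 hq1
        unfold hi at hp2 hq2
        rw [hpj] at hp1 hp2
        rw [hqj] at hq1 hq2
        have e1 : (2 * (p.2 : ℤ) + 1) < 2 * q.2 + 3 := by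
          by_contra hcon
          push Not at hcon
          have := mul_le_mul_of_nonneg_right hcon hpos.le
          omega
        have e2 : (2 * (q.2 : ℤ) + 1) < 2 * p.2 + 3 := by
          by_contra hcon
          push Not at hcon
          have := mul_le_mul_of_nonneg_right hcon hpos.le
          omega
        exact Prod.ext (hpj.trans hqj.symm) (by omega)
      have hA2 : Dec (cx k R) (cy k R) S 17 (Ins k R S a (e z) ∪ Q) := by
        have hcA : (bd (cx k R) (cy k R) S (Ins k R S a (e z))).card ≤ 16 := by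
          have h4 := card_bd_Ins hR hS a (e z)
          have h5 := card_Cr_le hR hS (j := j) h2 ha (he_cov z) hsing
          omega
        rcases Finset.card_le_one_iff_subset_singleton.mp hQcard with ⟨p0, hp0⟩
        rcases Finset.subset_singleton_iff.mp hp0 with h | h
        · rw [h, Finset.union_empty]; exact hdec
        · have hp0S : p0 ∈ S := by
            have : p0 ∈ Q := by rw [h]; exact Finset.mem_singleton_self _
            exact (Finset.mem_filter.mp this).1
          have hdisj : Disjoint (Ins k R S a (e z)) {p0} := by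
            rw [Finset.disjoint_singleton_right, mem_Ins]
            have : p0 ∈ Q := by rw [h]; exact Finset.mem_singleton_self _
            have := (Finset.mem_filter.mp this).2
            omega
          rw [h]
          refine Dec.union hdec (Dec.single hp0S) hdisj ?_
          refine le_trans (card_bd_union _ _ _ _ _) ?_
          have : (bd (cx k R) (cy k R) S {p0}).card ≤ 1 :=
            (Dec.single (g := 1) hp0S).card_bd le_rfl
          omega
      have hunion : Ins k R S a (e (z + 1)) =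
          (Ins k R S a (e z) ∪ Q) ∪ Ins k R S (e z) (e (z + 1)) := by
        ext p
        simp only [Finset.mem_union, mem_Ins, Q, Finset.mem_filter]
        have hl := lo_lt_hi (k := k) hR p
        constructor
        · rintro ⟨hp, h4, h5⟩
          rcases lt_or_ge (lo k R p) (e z) with h6 | h6
          · rcases lt_or_ge (hi k R p) (e z) with h7 | h7
            · exact Or.inl (Or.inl ⟨hp, h4, h7⟩)
            · exact Or.inl (Or.inr ⟨hp, h4, h6, h7, h5⟩)
          · exact Or.inr ⟨hp, h6, h5⟩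
        · rintro ((⟨hp, h4, h5⟩ | ⟨hp, h4, h5, h6, h7⟩) | ⟨hp, h4, h5⟩)
          · exact ⟨hp, h4, by omega⟩
          · exact ⟨hp, h4, h7⟩
          · exact ⟨hp, by omega, h5⟩
      rw [hunion]
      refine Dec.union hA2 hblock ?_ ?_
      · rw [Finset.disjoint_left]
        intro p hp hp'
        simp only [Finset.mem_union, mem_Ins, Q, Finset.mem_filter] at hp hp'
        have hl := lo_lt_hi (k := k) hR p
        omega
      · rw [← hunion]
        have h4 := card_bd_Ins hR hS a (e (z + 1))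
        have h5 := card_Cr_le hR hS (j := j) h2' ha (he_cov (z + 1)) hsing
        omega
    -- start and end of the sweep
    obtain ⟨z0, hz0⟩ : ∃ z0 : ℤ, e z0 = a := by
      refine ⟨-(|a| + 1), ?_⟩
      have h1 := hc2 (-(|a| + 1))
      have h2 : -(|a| + 1) * hh k R j + hh k R j = -(|a| * hh k R j) := by ring
      have h3 : |a| ≤ |a| * hh k R j := le_mul_of_one_le_right (abs_nonneg a) (by omega)
      have h4 := neg_abs_le a
      simp only [e]
      omega
    have hsweep : ∀ n : ℕ, Dec (cx k R) (cy k R) S 17 (Ins k R S a (e (z0 + n))) := by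
      intro n
      induction n with
      | zero =>
        rw [Nat.cast_zero, add_zero, hz0]
        have : Ins k R S a a = ∅ := by
          rw [Finset.eq_empty_iff_forall_notMem]
          intro p hp
          rw [mem_Ins] at hp
          have hl := lo_lt_hi (k := k) hR p
          omega
        rw [this]
        exact Dec.empty
      | succ n ihn =>
        have := hstep _ ihn
        rwa [add_assoc] at this
    have hend : e (z0 + ((|c| + |z0|).toNat : ℕ)) = c := by
      have h1 := hc1 (z0 + ((|c| + |z0|).toNat : ℕ))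
      have h2 : ((|c| + |z0|).toNat : ℤ) = |c| + |z0| :=
        Int.toNat_of_nonneg (add_nonneg (abs_nonneg _) (abs_nonneg _))
      rw [h2] at h1 ⊢
      have h3 : |c| ≤ z0 + (|c| + |z0|) := by have := neg_abs_le z0; omega
      have h4 : |c| * 1 ≤ (z0 + (|c| + |z0|)) * hh k R j :=
        mul_le_mul h3 (by omega) (by norm_num) (le_trans (abs_nonneg _) h3)
      have h5 := le_abs_self c
      simp only [e]
      omega
    have := hsweep (|c| + |z0|).toNat
    rwa [hend] at this

/-- Small sets of arcs have decompositions with at most `17` boundary points. -/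
theorem dec_all (hR : 0 < R) {S : Finset (ℕ × ℕ)} (hS : ∀ p ∈ S, p.1 < k) (hcard : S.card < R) :
    Dec (cx k R) (cy k R) S 17 S := by
  obtain ⟨M, hM⟩ : ∃ M : ℤ, ∀ p ∈ S, hi k R p < M := by
    obtain ⟨M, hM⟩ := (S.image (hi k R)).bddAbove
    exact ⟨M + 1, fun p hp => lt_of_le_of_lt (hM (by simpa using ⟨p.1, p.2, hp, rfl⟩))
      (lt_add_one M)⟩
  have hlo : ∀ p ∈ S, 0 ≤ lo k R p := by
    intro p _
    have := hh_pos (k := k) hR p.1
    unfold lo
    positivity
  have hM0 : Ins k R S 0 (max 0 M) = S := by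
    ext p
    rw [mem_Ins]
    refine ⟨fun h => h.1, fun h => ⟨h, hlo p h, lt_max_of_lt_right (hM p h)⟩⟩
  have := dec_Ins hR hS hcard k 0 (Nat.zero_add k) 0 (max 0 M) (le_max_left _ _)
    (fun p hp _ h => by have := hlo p hp; omega)
    (fun p hp _ h => by have := hM p hp; omega)
    (fun u v _ _ _ _ h _ => by obtain ⟨j, hj, _⟩ := h; omega)
  rwa [hM0] at this

end intervals

end Pool.Agent.PPM
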