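import Mathlib

/-!
# Trees: Helly property of connected vertex sets, and a lower bound for bag sizes

If a graph has `k` disjoint connected strands and `k` disjoint connected rows, each row meeting
each strand, then each tree decomposition has a bag with at least `k` vertices.
-/

set_option autoImplicit false

namespace Pool.Agent.PPM

open SimpleGraph

section Tree

variable {W : Type*} {T : SimpleGraph W}

/-- In a tree a vertex has only one neighbour nearer to the root. -/
theorem parent_unique (hT : T.IsTree) (r : W) {z a b : W} (ha : T.Adj z a) (hb : T.Adj z b)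
    (hda : T.dist r z = T.dist r a + 1) (hdb : T.dist r z = T.dist r b + 1) : a = b := by
  obtain ⟨p, hp, hpl⟩ := (hT.connected r z).exists_path_of_dist
  have key : ∀ c, T.Adj z c → T.dist r z = T.dist r c + 1 → c = p.penultimate := by
    intro c hc hdc
    apply hT.isAcyclic.eq_penultimate_of_adj_end hp hc
    obtain ⟨q, hq, hql⟩ := (hT.connected r c).exists_path_of_dist
    by_contra hcp
    have hz : z ∈ q.support :=
      hT.isAcyclic.mem_support_of_ne_mem_support_of_adj_of_isPath hq hp hc.symm hcp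
    have h2 := hT.isAcyclic.path_concat hp hq hc hz
    have h3 : q.length = p.length + 1 := by rw [h2, Walk.length_concat]
    omega
  rw [key a ha hda, key b hb hdb]

/-- A path that has started to go away from the root goes on doing so. -/
theorem dist_le_of_away (hT : T.IsTree) (r : W) {a b : W} (q : T.Walk a b) :
    ∀ p0 : W, T.Adj a p0 → T.dist r a = T.dist r p0 + 1 → q.IsPath → p0 ∉ q.support →
      T.dist r a ≤ T.dist r b := by
  induction q with
  | nil => intro _ _ _ _ _; exact le_rfl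
  | @cons u v w h q ih =>
    intro p0 hadj hd hq hp0
    rw [Walk.cons_isPath_iff] at hq
    rw [Walk.support_cons, List.mem_cons, not_or] at hp0
    rcases hT.dist_eq_dist_add_one_of_adj r h with h1 | h1
    · exfalso
      have := parent_unique hT r h hadj h1 hd
      apply hp0.2
      rw [← this]
      exact q.start_mem_support
    · have := ih u h.symm h1 hq.1 hq.2
      omega

/-- In a connected set of vertices of a tree, each vertex other than the nearest one to the root
has its parent in the set. -/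
theorem exists_parent_mem (hT : T.IsTree) (r : W) {U : Set W} (hU : (T.induce U).Preconnected)
    {u z : W} (hu : u ∈ U) (hz : z ∈ U) (hmin : ∀ v ∈ U, T.dist r u ≤ T.dist r v) (hne : z ≠ u) :
    ∃ a ∈ U, T.Adj z a ∧ T.dist r z = T.dist r a + 1 := by
  classical
  obtain ⟨w⟩ := hU ⟨z, hz⟩ ⟨u, hu⟩
  let q0 : T.Walk z u := w.map (Embedding.induce U).toHom
  have hsup0 : ∀ x ∈ q0.support, x ∈ U := by
    intro x hx
    have hx' : x ∈ (w.map (Embedding.induce U).toHom).support := hx
    rw [Walk.support_map, List.mem_map] at hx'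
    obtain ⟨y, _, rfl⟩ := hx'
    exact y.2
  let q : T.Walk z u := q0.bypass
  have hq : q.IsPath := q0.bypass_isPath
  have hsup : ∀ x ∈ q.support, x ∈ U := fun x hx => hsup0 x (q0.support_bypass_subset_support hx)
  clear_value q
  cases q with
  | nil => exact absurd rfl hne
  | @cons _ v _ h q' =>
    have hv : v ∈ U := hsup v (by rw [Walk.support_cons]; exact List.mem_cons_of_mem _ q'.start_mem_support)
    rcases hT.dist_eq_dist_add_one_of_adj r h with h1 | h1
    · exact ⟨v, hv, h, h1⟩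
    · exfalso
      rw [Walk.cons_isPath_iff] at hq
      have := dist_le_of_away hT r q' z h.symm h1 hq.1 hq.2
      have h2 := hmin z hz
      omega

theorem helly_two (hT : T.IsTree) (r : W) {U V : Set W} (hU : (T.induce U).Preconnected)
    (hV : (T.induce V).Preconnected) {u v : W} (hu : u ∈ U) (hv : v ∈ V)
    (hminU : ∀ x ∈ U, T.dist r u ≤ T.dist r x) (hminV : ∀ x ∈ V, T.dist r v ≤ T.dist r x)
    (huv : T.dist r v ≤ T.dist r u) :
    ∀ (n : ℕ) (z : W), T.dist r z = n → z ∈ U → z ∈ V → u ∈ V := by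
  intro n
  induction n with
  | zero =>
    intro z hzn hzU hzV
    have h1 := hminU z hzU
    by_cases hne : z = u
    · rwa [← hne]
    · obtain ⟨a, _, _, h2⟩ := exists_parent_mem hT r hU hu hzU hminU hne
      omega
  | succ n ih =>
    intro z hzn hzU hzV
    by_cases hne : z = u
    · rwa [← hne]
    obtain ⟨a, haU, haz, had⟩ := exists_parent_mem hT r hU hu hzU hminU hne
    have hzv : z ≠ v := by
      rintro rfl
      have := hminU a haU
      omega
    obtain ⟨b, hbV, hbz, hbd⟩ := exists_parent_mem hT r hV hv hzV hminV hzv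
    have hab : a = b := parent_unique hT r haz hbz had hbd
    subst hab
    exact ih a (by omega) haU hbV

/-- Helly property of connected sets of vertices of a tree -/
theorem helly (hT : T.IsTree) {ι : Type*} [Finite ι] [Nonempty ι] (U : ι → Set W)
    (hU : ∀ i, (T.induce (U i)).Connected) (hint : ∀ i j, (U i ∩ U j).Nonempty) :
    ∃ t, ∀ i, t ∈ U i := by
  classical
  have hne : Nonempty W := hT.connected.nonempty
  obtain ⟨r⟩ := hne
  have hmin : ∀ i, ∃ u ∈ U i, ∀ x ∈ U i, T.dist r u ≤ T.dist r x := by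
    intro i
    have hnonempty : (U i).Nonempty := by
      obtain ⟨⟨x, hx⟩⟩ := (hU i).nonempty
      exact ⟨x, hx⟩
    obtain ⟨n, hn⟩ := WellFounded.has_min (α := ℕ) (r := (· < ·)) wellFounded_lt
      ((fun x => T.dist r x) '' U i) (hnonempty.image _)
    obtain ⟨⟨u, hu, rfl⟩, hn2⟩ := hn
    exact ⟨u, hu, fun x hx => not_lt.mp (hn2 _ ⟨x, hx, rfl⟩)⟩
  choose u hu hmin using hmin
  obtain ⟨i0, hi0⟩ := Finite.exists_max (fun i => T.dist r (u i))
  refine ⟨u i0, fun j => ?_⟩
  obtain ⟨z, hz1, hz2⟩ := hint i0 j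
  exact helly_two hT r (hU i0).preconnected (hU j).preconnected (hu i0) (hu j) (hmin i0) (hmin j)
    (hi0 j) _ z rfl hz1 hz2

end Tree

section Bags

variable {V W : Type*} {G : SimpleGraph V} {T : SimpleGraph W} {B : W → Finset V}

/-- The nodes whose bags meet a connected set of vertices form a connected set. -/
theorem nodes_connected (hcov : ∀ v, ∃ t, v ∈ B t)
    (hedge : ∀ u v, G.Adj u v → ∃ t, u ∈ B t ∧ v ∈ B t)
    (hconn : ∀ v, (T.induce {t | v ∈ B t}).Connected) {S : Set V}
    (hS : (G.induce S).Connected) : (T.induce {t | ∃ v ∈ S, v ∈ B t}).Connected := by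
  have hsub : ∀ v ∈ S, {t | v ∈ B t} ⊆ {t | ∃ v ∈ S, v ∈ B t} := fun v hv t ht => ⟨v, hv, ht⟩
  have h1 : ∀ (v : V) (hv : v ∈ S) (s t : W) (hs : v ∈ B s) (ht : v ∈ B t),
      (T.induce {t | ∃ v ∈ S, v ∈ B t}).Reachable ⟨s, v, hv, hs⟩ ⟨t, v, hv, ht⟩ := by
    intro v hv s t hs ht
    have := (hconn v).preconnected ⟨s, hs⟩ ⟨t, ht⟩
    exact this.map (induceHomOfLE T (hsub v hv)).toHom
  have h2 : ∀ (a b : S), (G.induce S).Walk a b → ∀ (s t : W) (hs : a.1 ∈ B s) (ht : b.1 ∈ B t),
      (T.induce {t | ∃ v ∈ S, v ∈ B t}).Reachable ⟨s, a.1, a.2, hs⟩ ⟨t, b.1, b.2, ht⟩ := by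
    intro a b w
    induction w with
    | @nil u => intro s t hs ht; exact h1 u.1 u.2 s t hs ht
    | @cons u v w h p ih =>
      intro s t hs ht
      obtain ⟨x, hx1, hx2⟩ := hedge u.1 v.1 h
      exact (h1 u.1 u.2 s x hs hx1).trans (ih x t hx2 ht)
  obtain ⟨⟨v0, hv0⟩⟩ := hS.nonempty
  obtain ⟨t0, ht0⟩ := hcov v0
  have : Nonempty {t | ∃ v ∈ S, v ∈ B t} := ⟨⟨t0, v0, hv0, ht0⟩⟩
  refine ⟨?_⟩
  rintro ⟨s, v, hv, hs⟩ ⟨t, w, hw, ht⟩
  obtain ⟨p⟩ := hS.preconnected ⟨v, hv⟩ ⟨w, hw⟩
  exact h2 _ _ p s t hs ht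

/-- A union of two connected sets with a common vertex is connected. -/
theorem induce_union_connected' {S S' : Set V} (h : (G.induce S).Connected)
    (h' : (G.induce S').Connected) (hne : (S ∩ S').Nonempty) : (G.induce (S ∪ S')).Connected :=
  induce_union_connected h.preconnected h'.preconnected hne

theorem bag_card_ge (hT : T.IsTree) (hcov : ∀ v, ∃ t, v ∈ B t)
    (hedge : ∀ u v, G.Adj u v → ∃ t, u ∈ B t ∧ v ∈ B t)
    (hconn : ∀ v, (T.induce {t | v ∈ B t}).Connected) {k : ℕ} (P R : Fin k → Set V)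
    (hP : ∀ i, (G.induce (P i)).Connected) (hR : ∀ i, (G.induce (R i)).Connected)
    (hPd : ∀ i j, i ≠ j → Disjoint (P i) (P j)) (hRd : ∀ i j, i ≠ j → Disjoint (R i) (R j))
    (hPR : ∀ i j, (P i ∩ R j).Nonempty) (hk : 0 < k) : ∃ t, k ≤ (B t).card := by
  classical
  have : Nonempty (Fin k) := ⟨⟨0, hk⟩⟩
  have hc : ∀ x : Fin k × Fin k, (T.induce {t | ∃ v ∈ P x.1 ∪ R x.2, v ∈ B t}).Connected :=
    fun x => nodes_connected hcov hedge hconn
      (induce_union_connected' (hP x.1) (hR x.2) (hPR x.1 x.2))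
  obtain ⟨t, ht⟩ := helly hT (fun x : Fin k × Fin k => {t | ∃ v ∈ P x.1 ∪ R x.2, v ∈ B t}) hc (by
    rintro ⟨i, j⟩ ⟨i', j'⟩
    obtain ⟨v, hv1, hv2⟩ := hPR i j'
    obtain ⟨t, ht⟩ := hcov v
    exact ⟨t, ⟨v, Or.inl hv1, ht⟩, ⟨v, Or.inr hv2, ht⟩⟩)
  refine ⟨t, ?_⟩
  by_contra hlt
  push Not at hlt
  -- some strand misses the bag, and some row misses the bag
  have miss : ∀ Q : Fin k → Set V, (∀ i j, i ≠ j → Disjoint (Q i) (Q j)) →
      ∃ i, ∀ v ∈ Q i, v ∉ B t := by
    intro Q hQ
    by_contra hcon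
    push Not at hcon
    choose f hf1 hf2 using hcon
    have hinj : Function.Injective f := by
      intro i j hij
      by_contra hne
      exact Set.disjoint_left.mp (hQ i j hne) (hf1 i) (hij ▸ hf1 j)
    have : (Finset.univ.image f).card ≤ (B t).card :=
      Finset.card_le_card (by
        intro x hx
        obtain ⟨i, _, rfl⟩ := Finset.mem_image.mp hx
        exact hf2 i)
    rw [Finset.card_image_of_injective _ hinj, Finset.card_univ, Fintype.card_fin] at this
    omega
  obtain ⟨i, hi⟩ := miss P hPd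
  obtain ⟨j, hj⟩ := miss R hRd
  obtain ⟨v, hv, hvt⟩ := ht (i, j)
  rcases hv with hv | hv
  · exact hi v hv hvt
  · exact hj v hv hvt

end Bags

end Pool.Agent.PPM
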