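import Mathlib
import Pool.Agent.Lib_helper89.PPM.Defs
import Pool.Agent.Lib_helper89.PPM.Tree
import Pool.Agent.Lib_helper89.PPM.Scales

/-!
# The permutations of the superposed staircases
-/

set_option autoImplicit false

namespace Pool.Agent.PPM

open SimpleGraph

/-- standardisation of a finite point set -/
theorem exists_perm {E : Type} [Fintype E] (X Y : E → ℤ) (hX : Function.Injective X)
    (hY : Function.Injective Y) :
    ∃ (π : Permutation) (e : Fin π.1 ≃ E), (∀ i j, i < j ↔ X (e i) < X (e j)) ∧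
      ∀ i j, π.2 i < π.2 j ↔ Y (e i) < Y (e j) := by
  have key : ∀ Z : E → ℤ, Function.Injective Z →
      ∃ e : Fin (Fintype.card E) ≃ E, ∀ i j, i < j ↔ Z (e i) < Z (e j) := by
    intro Z hZ
    let _ : LinearOrder E := LinearOrder.lift' Z hZ
    refine ⟨(Fintype.orderIsoFinOfCardEq E rfl).toEquiv, fun i j => ?_⟩
    rw [← (Fintype.orderIsoFinOfCardEq E rfl).lt_iff_lt]
    exact Iff.rfl
  obtain ⟨ex, hex⟩ := key X hX
  obtain ⟨ey, hey⟩ := key Y hY
  refine ⟨⟨Fintype.card E, ex.trans ey.symm⟩, ex, hex, fun i j => ?_⟩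
  rw [hey]
  simp

section graph

variable {E : Type} {X Y : E → ℤ} {π : Permutation} {e : Fin π.1 ≃ E}

theorem adj_of_next_X (hX : ∀ i j, i < j ↔ X (e i) < X (e j)) {p q : E} (h1 : X p < X q)
    (h2 : ∀ r, X r ≤ X p ∨ X q ≤ X r) : (permGraph π).Adj (e.symm p) (e.symm q) := by
  have hlt : e.symm p < e.symm q := by rw [hX]; simpa using h1
  have hval : (e.symm p).val + 1 = (e.symm q).val := by
    by_contra hne
    have h3 : (e.symm p).val + 1 < (e.symm q).val := by
      have : (e.symm p).val < (e.symm q).val := hlt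
      omega
    let r : Fin π.1 := ⟨(e.symm p).val + 1, by have := (e.symm q).isLt; omega⟩
    have hr1 : e.symm p < r := by
      show (e.symm p).val < (e.symm p).val + 1
      omega
    have hr2 : r < e.symm q := h3
    rw [hX] at hr1 hr2
    rw [Equiv.apply_symm_apply] at hr1 hr2
    have := h2 (e r)
    omega
  rw [permGraph, SimpleGraph.fromRel_adj]
  exact ⟨hlt.ne, Or.inl (Or.inl hval)⟩

theorem adj_of_next_Y (hY : ∀ i j, π.2 i < π.2 j ↔ Y (e i) < Y (e j)) {p q : E} (h1 : Y p < Y q)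
    (h2 : ∀ r, Y r ≤ Y p ∨ Y q ≤ Y r) : (permGraph π).Adj (e.symm p) (e.symm q) := by
  have hlt : π.2 (e.symm p) < π.2 (e.symm q) := by rw [hY]; simpa using h1
  have hval : (π.2 (e.symm p)).val + 1 = (π.2 (e.symm q)).val := by
    by_contra hne
    have h3 : (π.2 (e.symm p)).val + 1 < (π.2 (e.symm q)).val := by
      have : (π.2 (e.symm p)).val < (π.2 (e.symm q)).val := hlt
      omega
    let r : Fin π.1 := π.2.symm ⟨(π.2 (e.symm p)).val + 1, by
      have := (π.2 (e.symm q)).isLt; omega⟩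
    have hr0 : (π.2 r).val = (π.2 (e.symm p)).val + 1 := by simp [r]
    have hr1 : π.2 (e.symm p) < π.2 r := by
      show (π.2 (e.symm p)).val < (π.2 r).val
      omega
    have hr2 : π.2 r < π.2 (e.symm q) := by
      show (π.2 r).val < (π.2 (e.symm q)).val
      omega
    rw [hY] at hr1 hr2
    rw [Equiv.apply_symm_apply] at hr1 hr2
    have := h2 (e r)
    omega
  rw [permGraph, SimpleGraph.fromRel_adj]
  refine ⟨fun h => ?_, Or.inl (Or.inr hval)⟩
  rw [h] at hlt
  exact lt_irrefl _ hlt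

/-- Points whose coordinates fill a window form a connected set. -/
theorem window_connected (hX : ∀ i j, i < j ↔ X (e i) < X (e j)) (u v : ℤ)
    (hne : ∃ p, u ≤ X p ∧ X p < v) :
    ((permGraph π).induce {i | u ≤ X (e i) ∧ X (e i) < v}).Connected := by
  have step : ∀ (d : ℕ) (i j : {i | u ≤ X (e i) ∧ X (e i) < v}), i.1.val + d = j.1.val →
      ((permGraph π).induce {i | u ≤ X (e i) ∧ X (e i) < v}).Reachable i j := by
    intro d
    induction d with
    | zero =>
      intro i j h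
      have : i = j := Subtype.ext (Fin.ext (by omega))
      rw [this]
    | succ d ih =>
      rintro ⟨i, hi⟩ ⟨j, hj⟩ h
      simp only at h
      have hjn := j.isLt
      let i' : Fin π.1 := ⟨i.val + 1, by omega⟩
      have h1 : i < i' := by
        show i.val < i.val + 1
        omega
      have h2 : i' ≤ j := by
        show i.val + 1 ≤ j.val
        omega
      have h3 := (hX i i').mp h1
      have h4 : X (e i') ≤ X (e j) := by
        rcases h2.lt_or_eq with h | h
        · exact ((hX _ _).mp h).le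
        · rw [h]
      have hi' : u ≤ X (e i') ∧ X (e i') < v := ⟨by have := hi.1; omega, by have := hj.2; omega⟩
      have hadj : ((permGraph π).induce {i | u ≤ X (e i) ∧ X (e i) < v}).Adj ⟨i, hi⟩ ⟨i', hi'⟩ := by
        show (permGraph π).Adj i i'
        rw [permGraph, SimpleGraph.fromRel_adj]
        exact ⟨h1.ne, Or.inl (Or.inl rfl)⟩
      exact hadj.reachable.trans (ih ⟨i', hi'⟩ ⟨j, hj⟩ (by
        show i.val + 1 + d = j.val
        omega))
  obtain ⟨p, hp⟩ := hne
  have : Nonempty {i | u ≤ X (e i) ∧ X (e i) < v} := ⟨⟨e.symm p, by simpa using hp⟩⟩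
  refine ⟨fun i j => ?_⟩
  rcases le_total i.1.val j.1.val with h | h
  · exact step (j.1.val - i.1.val) i j (by omega)
  · exact (step (i.1.val - j.1.val) j i (by omega)).symm

/-- A sequence of vertices with consecutive ones adjacent is connected. -/
theorem range_connected {V : Type} {G : SimpleGraph V} {M : ℕ} (hM : 0 < M) (f : Fin M → V)
    (hf : ∀ (i : ℕ) (h : i + 1 < M), G.Adj (f ⟨i, by omega⟩) (f ⟨i + 1, h⟩)) :
    (G.induce (Set.range f)).Connected := by
  have h0 : ∀ (i : ℕ) (h : i < M), (G.induce (Set.range f)).Reachable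
      ⟨f ⟨0, hM⟩, Set.mem_range_self _⟩ ⟨f ⟨i, h⟩, Set.mem_range_self _⟩ := by
    intro i
    induction i with
    | zero => intro h; exact SimpleGraph.Reachable.refl _
    | succ i ih =>
      intro h
      refine (ih (by omega)).trans (SimpleGraph.Adj.reachable ?_)
      exact hf i h
  have : Nonempty (Set.range f) := ⟨⟨f ⟨0, hM⟩, Set.mem_range_self _⟩⟩
  refine ⟨?_⟩
  rintro ⟨_, i, rfl⟩ ⟨_, j, rfl⟩
  exact (h0 i.1 i.2).symm.trans (h0 j.1 j.2)

end graph

/-- the arcs used: scales `< k`, indices `< M` -/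
def arcs (k M : ℕ) : Finset (ℕ × ℕ) := Finset.range k ×ˢ Finset.range M

theorem mem_arcs {k M : ℕ} {p : ℕ × ℕ} : p ∈ arcs k M ↔ p.1 < k ∧ p.2 < M := by
  simp [arcs]

/-- consecutive arcs of one scale are neighbours -/
theorem next_arc {k R : ℕ} {j i : ℕ} :
    (cx k R (j, i) < cx k R (j, i + 1) ∧
      ∀ r : ℕ × ℕ, cx k R r ≤ cx k R (j, i) ∨ cx k R (j, i + 1) ≤ cx k R r) ∨
    (cy k R (j, i) < cy k R (j, i + 1) ∧
      ∀ r : ℕ × ℕ, cy k R r ≤ cy k R (j, i) ∨ cy k R (j, i + 1) ≤ cy k R r) := by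
  rcases Nat.mod_two_eq_zero_or_one i with h | h
  · left
    have e1 : cx k R (j, i + 1) = cx k R (j, i) + 1 := by
      unfold cx lx
      have a1 : (i + 1) / 2 = i / 2 := by omega
      have a2 : (i + 1) % 2 = 1 := by omega
      simp only
      rw [a1, a2, h]
      push_cast
      ring
    exact ⟨by omega, fun r => by omega⟩
  · right
    have e1 : cy k R (j, i + 1) = cy k R (j, i) + 1 := by
      unfold cy ly
      have a1 : (i + 1 + 1) / 2 = (i + 1) / 2 := by omega
      have a2 : (i + 1 + 1) % 2 = 1 := by omega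
      have a3 : (i + 1) % 2 = 0 := by omega
      simp only
      rw [a1, a2, a3]
      push_cast
      ring
    exact ⟨by omega, fun r => by omega⟩

/-- **Key lemma.** For each `k` and `R` there is a permutation of treewidth at least `k` that is
the standardisation of a set of arcs. -/
theorem exists_staircase_aux (K R M : ℕ) (hR : 0 < R) (hK : 0 < K)
    (hM : M = 2 * (K * (2 * R) ^ K) + 1) : ∃ (π : Permutation)
    (e : Fin π.1 ≃ arcs K M),
    (∀ i j, i < j ↔ cx K R (e i) < cx K R (e j)) ∧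
    (∀ i j, π.2 i < π.2 j ↔ cy K R (e i) < cy K R (e j)) ∧
    ∀ k, k + 2 = K → ¬ TreewidthLE (permGraph π) k := by
  obtain ⟨π, e, hX, hY⟩ := exists_perm (E := arcs K M) (fun p => cx K R p.1) (fun p => cy K R p.1)
    (fun p q h => Subtype.ext (cx_injOn hR (mem_arcs.mp p.2).1 (mem_arcs.mp q.2).1 h))
    (fun p q h => Subtype.ext (cy_injOn hR (mem_arcs.mp p.2).1 (mem_arcs.mp q.2).1 h))
  refine ⟨π, e, hX, hY, ?_⟩
  rintro k hk ⟨m, T, B, hT, hcov, hedge, hconn, hcard⟩
  have hM0 : 0 < M := by omega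
  -- strands
  let f : Fin K → Fin M → Fin π.1 := fun j i => e.symm ⟨(j.1, i.1), mem_arcs.mpr ⟨j.2, i.2⟩⟩
  have hP : ∀ j : Fin K, ((permGraph π).induce (Set.range (f j))).Connected := by
    intro j
    apply range_connected hM0
    intro i hi
    rcases next_arc (k := K) (R := R) (j := j.1) (i := i) with h | h
    · exact adj_of_next_X (X := fun p : arcs K M => cx K R p.1) (e := e)
        (p := ⟨(j.1, i), mem_arcs.mpr ⟨j.2, by omega⟩⟩)
        (q := ⟨(j.1, i + 1), mem_arcs.mpr ⟨j.2, hi⟩⟩) hX h.1 (fun r => h.2 r.1)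
    · exact adj_of_next_Y (Y := fun p : arcs K M => cy K R p.1) (e := e)
        (p := ⟨(j.1, i), mem_arcs.mpr ⟨j.2, by omega⟩⟩)
        (q := ⟨(j.1, i + 1), mem_arcs.mpr ⟨j.2, hi⟩⟩) hY h.1 (fun r => h.2 r.1)
  -- rows
  obtain ⟨W, hWdef⟩ : ∃ W : ℤ, W = 8 * hh K R 0 := ⟨_, rfl⟩
  have hW : 0 < W := by have := hh_pos (k := K) hR 0; omega
  -- the arc of scale j in row r
  have harc : ∀ (j r : Fin K), ∃ i : Fin M, (r.1 : ℤ) * W ≤ cx K R (j.1, i.1) ∧
      cx K R (j.1, i.1) < ((r.1 : ℤ) + 1) * W := by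
    intro j r
    obtain ⟨v, hv⟩ : ∃ v : ℕ, v = r.1 * (2 * R) ^ j.1 := ⟨_, rfl⟩
    have hle : v ≤ K * (2 * R) ^ K := by
      rw [hv]
      apply Nat.mul_le_mul r.2.le
      exact Nat.pow_le_pow_right (by omega) j.2.le
    refine ⟨⟨2 * v, by omega⟩, ?_⟩
    have hj0 := hh_add (k := K) (R := R) (j := 0) (d := j.1) (by omega)
    rw [Nat.zero_add] at hj0
    have hposj := hh_pos (k := K) hR j.1
    have h1 : (1 : ℤ) ≤ (2 * (R : ℤ)) ^ j.1 := one_le_pow₀ (by
      have : (1 : ℤ) ≤ R := by exact_mod_cast hR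
      omega)
    have e1 : cx K R (j.1, 2 * v) = (r.1 : ℤ) * W + 6 * hh K R j.1 := by
      unfold cx lx
      have a1 : 2 * v / 2 = v := by omega
      have a2 : 2 * v % 2 = 0 := by omega
      simp only
      rw [a1, a2, hWdef, hj0, hv]
      push_cast
      ring
    rw [e1]
    refine ⟨by omega, ?_⟩
    have h2 : 6 * hh K R j.1 < W := by
      rw [hWdef, hj0]
      nlinarith
    have : ((r.1 : ℤ) + 1) * W = r.1 * W + W := by ring
    omega
  obtain ⟨Rw, hRw⟩ : ∃ Rw : Fin K → Set (Fin π.1), Rw = fun r =>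
    {i | (r.1 : ℤ) * W ≤ cx K R (e i).1 ∧ cx K R (e i).1 < ((r.1 : ℤ) + 1) * W} := ⟨_, rfl⟩
  have hRow : ∀ r : Fin K, ((permGraph π).induce (Rw r)).Connected := by
    intro r
    obtain ⟨i, hi1, hi2⟩ := harc ⟨0, hK⟩ r
    have hne : ∃ p : arcs K M, (r.1 : ℤ) * W ≤ cx K R p.1 ∧ cx K R p.1 < ((r.1 : ℤ) + 1) * W := by
      refine ⟨⟨(0, i.1), mem_arcs.mpr ⟨hK, i.2⟩⟩, ?_, ?_⟩
      · exact hi1
      · exact hi2
    have h0 := window_connected (X := fun p : arcs K M => cx K R p.1) (e := e) hX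
      ((r.1 : ℤ) * W) (((r.1 : ℤ) + 1) * W) hne
    rw [hRw]
    exact h0
  have hPd : ∀ i j : Fin K, i ≠ j → Disjoint (Set.range (f i)) (Set.range (f j)) := by
    intro i j hij
    rw [Set.disjoint_left]
    rintro _ ⟨a, rfl⟩ ⟨b, hb⟩
    have h1 := e.symm.injective hb
    have h2 := congrArg Prod.fst (congrArg Subtype.val h1)
    exact hij (Fin.ext h2.symm)
  have hRd : ∀ i j : Fin K, i ≠ j → Disjoint (Rw i) (Rw j) := by
    intro i j hij
    rw [Set.disjoint_left]
    intro x h12 h34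
    simp only [hRw, Set.mem_ofPred_eq] at h12 h34
    obtain ⟨h1, h2⟩ := h12
    obtain ⟨h3, h4⟩ := h34
    apply hij
    apply Fin.ext
    have a1 : (i.1 : ℤ) < j.1 + 1 := by
      by_contra hcon
      push Not at hcon
      have := mul_le_mul_of_nonneg_right hcon hW.le
      omega
    have a2 : (j.1 : ℤ) < i.1 + 1 := by
      by_contra hcon
      push Not at hcon
      have := mul_le_mul_of_nonneg_right hcon hW.le
      omega
    omega
  have hPR : ∀ j r : Fin K, (Set.range (f j) ∩ Rw r).Nonempty := by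
    intro j r
    obtain ⟨i, hi⟩ := harc j r
    refine ⟨f j i, Set.mem_range_self _, ?_⟩
    simp only [hRw, f, Set.mem_ofPred_eq, Equiv.apply_symm_apply]
    exact hi
  obtain ⟨t, ht⟩ := bag_card_ge hT hcov hedge hconn (fun j => Set.range (f j)) Rw hP hRow
    hPd hRd hPR hK
  have := hcard t
  omega

end Pool.Agent.PPM
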