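import Mathlib
import Pool.Agent.Lib_helper89.PPM.Perm

/-!
# Permutations with narrow hierarchical decompositions
-/

set_option autoImplicit false

namespace Pool.Agent.PPM

theorem Dec.mono {α : Type*} [DecidableEq α] {X Y : α → ℤ} {S : Finset α} {g g' : ℕ}
    (hg : g ≤ g') {A : Finset α} (h : Dec X Y S g A) : Dec X Y S g' A := by
  induction h with
  | empty => exact Dec.empty
  | single h => exact Dec.single h
  | union _ _ h1 h2 ih1 ih2 => exact Dec.union ih1 ih2 h1 (h2.trans hg)

theorem dec_of_card_le {α : Type*} [DecidableEq α] {X Y : α → ℤ} {S : Finset α} {g : ℕ}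
    (hS : S.card ≤ g) {A : Finset α} (hA : A ⊆ S) : Dec X Y S g A := by
  induction A using Finset.induction_on with
  | empty => exact Dec.empty
  | insert a A ha ih =>
    have h1 : Dec X Y S g A := ih fun x hx => hA (Finset.mem_insert_of_mem hx)
    have h2 : insert a A = A ∪ {a} := by rw [Finset.union_comm]; rfl
    rw [h2] at hA ⊢
    refine Dec.union h1 (Dec.single (hA (by simp))) (by simpa using ha) ?_
    refine le_trans (Finset.card_le_card ?_) hS
    exact fun x hx => hA (mem_bd.mp hx).1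

/-- transport along an embedding of point sets that preserves both orders -/
theorem Dec.comap {α β : Type*} [DecidableEq α] [DecidableEq β] {X Y : α → ℤ} {X' Y' : β → ℤ}
    {S : Finset α} {S' : Finset β} {φ : β → α} (hφ : Function.Injective φ)
    (hS : S = S'.image φ) (hX : ∀ a b, X' a < X' b ↔ X (φ a) < X (φ b))
    (hY : ∀ a b, Y' a < Y' b ↔ Y (φ a) < Y (φ b)) {g : ℕ} {A : Finset α} (h : Dec X Y S g A) :
    Dec X' Y' S' g (S'.filter fun b => φ b ∈ A) := by
  have hX' : ∀ a b, X' a ≤ X' b ↔ X (φ a) ≤ X (φ b) := by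
    intro a b; rw [← not_lt, ← not_lt, hX]
  have hY' : ∀ a b, Y' a ≤ Y' b ↔ Y (φ a) ≤ Y (φ b) := by
    intro a b; rw [← not_lt, ← not_lt, hY]
  have hnX : ∀ a b, Next X' S' a b → Next X S (φ a) (φ b) := by
    rintro a b ⟨ha, hb, hab, hr⟩
    refine ⟨hS ▸ Finset.mem_image_of_mem _ ha, hS ▸ Finset.mem_image_of_mem _ hb,
      (hX a b).mp hab, ?_⟩
    intro r hr'
    rw [hS, Finset.mem_image] at hr'
    obtain ⟨c, hc, rfl⟩ := hr'
    rw [← hX', ← hX']
    exact hr c hc
  have hnY : ∀ a b, Next Y' S' a b → Next Y S (φ a) (φ b) := by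
    rintro a b ⟨ha, hb, hab, hr⟩
    refine ⟨hS ▸ Finset.mem_image_of_mem _ ha, hS ▸ Finset.mem_image_of_mem _ hb,
      (hY a b).mp hab, ?_⟩
    intro r hr'
    rw [hS, Finset.mem_image] at hr'
    obtain ⟨c, hc, rfl⟩ := hr'
    rw [← hY', ← hY']
    exact hr c hc
  have hn : ∀ a b, Nbr X' Y' S' a b → Nbr X Y S (φ a) (φ b) := by
    rintro a b (h | h | h | h)
    · exact Or.inl (hnX _ _ h)
    · exact Or.inr (Or.inl (hnX _ _ h))
    · exact Or.inr (Or.inr (Or.inl (hnY _ _ h)))
    · exact Or.inr (Or.inr (Or.inr (hnY _ _ h)))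
  induction h with
  | empty =>
    have : (S'.filter fun b => φ b ∈ (∅ : Finset α)) = ∅ := by simp
    rw [this]
    exact Dec.empty
  | @single p hp =>
    rw [hS, Finset.mem_image] at hp
    obtain ⟨b, hb, rfl⟩ := hp
    have : (S'.filter fun c => φ c ∈ ({φ b} : Finset α)) = {b} := by
      ext c
      simp only [Finset.mem_filter, Finset.mem_singleton]
      constructor
      · rintro ⟨_, h⟩; exact hφ h
      · rintro rfl; exact ⟨hb, rfl⟩
    rw [this]
    exact Dec.single hb
  | @union A B hA hB hAB hc ihA ihB =>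
    have : (S'.filter fun b => φ b ∈ A ∪ B) =
        (S'.filter fun b => φ b ∈ A) ∪ (S'.filter fun b => φ b ∈ B) := by
      ext c
      simp only [Finset.mem_filter, Finset.mem_union]
      tauto
    rw [this]
    refine Dec.union ihA ihB ?_ ?_
    · rw [Finset.disjoint_left]
      intro c h1 h2
      rw [Finset.mem_filter] at h1 h2
      exact Finset.disjoint_left.mp hAB h1.2 h2.2
    · refine le_trans (Finset.card_le_card_of_injOn φ ?_ hφ.injOn) hc
      intro c hcc
      rw [← this] at hcc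
      have hcc' := mem_bd.mp (Finset.mem_coe.mp hcc)
      obtain ⟨h1, q, hq, hqn, hnbr⟩ := hcc'
      rw [Finset.mem_coe, mem_bd]
      refine ⟨(Finset.mem_filter.mp h1).2, φ q, hS ▸ Finset.mem_image_of_mem _ hq, ?_, hn _ _ hnbr⟩
      intro hcon
      exact hqn (Finset.mem_filter.mpr ⟨hq, hcon⟩)

/-- `σ` has a hierarchical decomposition with at most `g` boundary points. -/
def Wid (g : ℕ) (σ : Permutation) : Prop :=
  Dec (fun i : Fin σ.1 => (i.val : ℤ)) (fun i => ((σ.2 i).val : ℤ)) Finset.univ g Finset.univ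

theorem Wid.mono {g g' : ℕ} (h : g ≤ g') {σ : Permutation} (hσ : Wid g σ) : Wid g' σ :=
  Dec.mono h hσ

theorem wid_of_length_le {g : ℕ} {σ : Permutation} (h : σ.1 ≤ g) : Wid g σ :=
  dec_of_card_le (by simpa using h) (Finset.subset_univ _)

/-- Short patterns of the staircase permutations are narrow. -/
theorem wid_of_contains {K R M : ℕ} (hR : 0 < R) {π : Permutation} (e : Fin π.1 ≃ arcs K M)
    (hX : ∀ i j, i < j ↔ cx K R (e i) < cx K R (e j))
    (hY : ∀ i j, π.2 i < π.2 j ↔ cy K R (e i) < cy K R (e j)) {σ : Permutation}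
    (hσ : Contains π σ) (hlen : σ.1 < R) : Wid 17 σ := by
  obtain ⟨f, hf, hf2⟩ := hσ
  let φ : Fin σ.1 → ℕ × ℕ := fun i => (e (f i)).1
  have hφ : Function.Injective φ :=
    Subtype.val_injective.comp (e.injective.comp hf.injective)
  have hcard : (Finset.univ.image φ).card = σ.1 := by
    rw [Finset.card_image_of_injective _ hφ, Finset.card_univ, Fintype.card_fin]
  have h := dec_all (k := K) (R := R) hR (S := Finset.univ.image φ) (by
    intro p hp
    rw [Finset.mem_image] at hp
    obtain ⟨i, _, rfl⟩ := hp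
    exact (mem_arcs.mp (e (f i)).2).1) (by omega)
  have h2 := Dec.comap (X' := fun i : Fin σ.1 => (i.val : ℤ))
    (Y' := fun i : Fin σ.1 => ((σ.2 i).val : ℤ)) (S' := Finset.univ) hφ rfl (by
      intro a b
      show _ ↔ cx K R (e (f a)) < cx K R (e (f b))
      rw [← hX, hf.lt_iff_lt, Fin.lt_def]
      exact Int.ofNat_lt) (by
      intro a b
      show _ ↔ cy K R (e (f a)) < cy K R (e (f b))
      rw [← hY, ← hf2, Fin.lt_def]
      exact Int.ofNat_lt) h
  have h3 : (Finset.univ.filter fun b => φ b ∈ Finset.univ.image φ) = Finset.univ := by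
    ext c
    simp
  rw [h3] at h2
  exact h2

end Pool.Agent.PPM
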