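import Mathlib
import Pool.Agent.Lib_helper89.PPM.Alg
import Pool.Agent.Lib_helper89.PPM.Width

/-!
# The pebble game algorithm is correct for patterns with narrow decompositions
-/

set_option autoImplicit false

namespace Pool.Agent.PPM

open PT

/-- a point of a permutation -/
def ppt (σ : Permutation) (i : Fin σ.1) : Pt := (U.mk i.val, U.mk (σ.2 i).val)

theorem ppt_injective (σ : Permutation) : Function.Injective (ppt σ) := by
  intro i j h
  have := congrArg (fun x => x.1.val) h
  exact Fin.ext this

theorem pts_values (σ : Permutation) : pts (values σ) = List.ofFn (ppt σ) := by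
  apply List.ext_getElem
  · simp [pts, values, rangeU]
  · intro n h1 h2
    simp [pts, values, rangeU, ppt]

theorem mem_pts {σ : Permutation} {x : Pt} : x ∈ pts (values σ) ↔ ∃ i, ppt σ i = x := by
  rw [pts_values, List.mem_ofFn]

theorem mem_tuples {L : List Peb} {k : ℕ} {w : List Peb} :
    w ∈ tuples L k ↔ w.length = k ∧ ∀ u ∈ w, u ∈ L := by
  induction k generalizing w with
  | zero =>
    simp only [tuples, List.mem_singleton, List.length_eq_zero_iff]
    constructor
    · rintro rfl; simp
    · exact fun h => h.1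
  | succ k ih =>
    simp only [tuples, List.mem_flatMap, List.mem_map]
    constructor
    · rintro ⟨t, ht, p, hp, rfl⟩
      rw [ih] at ht
      refine ⟨by simp [ht.1], ?_⟩
      intro u hu
      rw [List.mem_cons] at hu
      rcases hu with rfl | hu
      · exact hp
      · exact ht.2 u hu
    · rintro ⟨h1, h2⟩
      cases w with
      | nil => simp at h1
      | cons p t =>
        refine ⟨t, ih.mpr ⟨by simpa using h1, fun u hu => h2 u (List.mem_cons_of_mem _ hu)⟩, p,
          h2 p (List.mem_cons_self ..), rfl⟩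

theorem mem_pebs {P Q : List Pt} {u : Peb} : u ∈ pebs P Q ↔ u.1 ∈ P ∧ u.2 ∈ Q := by
  simp only [pebs, List.mem_flatMap, List.mem_map]
  constructor
  · rintro ⟨p, hp, q, hq, rfl⟩; exact ⟨hp, hq⟩
  · rintro ⟨hp, hq⟩; exact ⟨u.1, hp, u.2, hq, rfl⟩

theorem okk_iff {w : List Peb} : okk w = true ↔ ∀ u ∈ w, ∀ v ∈ w, rel u v = true := by
  simp [okk]

theorem mem_start {K : ℕ} {P Q : List Pt} {w : List Peb} :
    w ∈ start K P Q ↔ w.length = K ∧ (∀ u ∈ w, u.1 ∈ P ∧ u.2 ∈ Q) ∧
      ∀ u ∈ w, ∀ v ∈ w, rel u v = true := by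
  simp only [start, List.mem_filter, mem_tuples, okk_iff, mem_pebs]
  tauto

theorem agree_iff {a : ℕ} {p : Pt} {w w' : List Peb} (hw : w.length = w'.length) :
    agree (U.mk a) p w w' = true ↔ ∀ (j : ℕ) (h : j < w.length),
      (j = a → (w'[j]'(hw ▸ h)).1 = p) ∧ (j ≠ a → w[j] = w'[j]'(hw ▸ h)) := by
  unfold agree
  rw [List.all_eq_true]
  constructor
  · intro h j hj
    have hmem : (U.mk j, (w[j], w'[j]'(hw ▸ hj))) ∈ (rangeU w.length).zip (w.zip w') := by
      rw [List.mem_iff_getElem]
      refine ⟨j, by simp [rangeU, ← hw, hj], ?_⟩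
      simp [rangeU]
    have h1 := h _ hmem
    simp only [U.mk.injEq] at h1
    constructor
    · rintro rfl
      simpa using h1
    · intro hne
      simpa [hne] using h1
  · intro h z hz
    rw [List.mem_iff_getElem] at hz
    obtain ⟨j, hj, rfl⟩ := hz
    have hj' : j < w.length := by
      simp [rangeU, ← hw] at hj
      exact hj
    have h1 := h j hj'
    simp only [List.getElem_zip, rangeU, List.getElem_map, List.getElem_range, U.mk.injEq]
    by_cases hja : j = a
    · simpa [hja] using h1.1 hja
    · simpa [hja] using h1.2 hja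

theorem good_iff {K : ℕ} {P : List Pt} {H : List (List Peb)} {w : List Peb} :
    good K P H w = true ↔ ∀ a < K, ∀ p ∈ P, ∃ w' ∈ H, agree (U.mk a) p w w' = true := by
  simp only [good, List.all_eq_true, List.any_eq_true, rangeU, List.mem_map, List.mem_range]
  constructor
  · intro h a ha p hp
    exact h (U.mk a) ⟨a, ha, rfl⟩ p hp
  · rintro h _ ⟨a, ha, rfl⟩ p hp
    exact h a ha p hp

theorem mem_step {K : ℕ} {P : List Pt} {H : List (List Peb)} {w : List Peb} :
    w ∈ step K P H ↔ w ∈ H ∧ good K P H w = true := by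
  simp [step, List.mem_filter]

theorem iterate_fixed {α : Type} (f : List α → List α) (q : List α → α → Bool)
    (hf : ∀ H, f H = H.filter (q H)) :
    ∀ (n : ℕ) (H : List α), H.length ≤ n → f (f^[n] H) = f^[n] H := by
  intro n
  induction n with
  | zero =>
    intro H hH
    have : H = [] := List.length_eq_zero_iff.mp (by omega)
    rw [this, Function.iterate_zero, id_eq, hf]
    rfl
  | succ n ih =>
    intro H hH
    rw [Function.iterate_succ_apply]
    by_cases h : f H = H
    · rw [h, Function.iterate_fixed h, h]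
    · apply ih
      have h1 : (f H).length ≤ H.length := by rw [hf]; exact List.length_filter_le _ _
      have h2 : (f H).length ≠ H.length := by
        intro h3
        apply h
        rw [hf] at h3 ⊢
        exact List.filter_sublist.eq_of_length h3
      omega

/-- an embedding survives -/
theorem alg_of_contains {K : ℕ} {σ τ : Permutation} (h : Contains τ σ) :
    alg K (values σ) (values τ) = true := by
  obtain ⟨f, hf, hf2⟩ := h
  unfold alg
  rw [Bool.or_eq_true]
  by_cases h0 : σ.1 = 0
  · left
    rw [List.isEmpty_iff]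
    apply List.length_eq_zero_iff.mp
    simp [values, h0]
  right
  set P := pts (values σ)
  set Q := pts (values τ)
  let F : List Peb → Prop := fun w => w.length = K ∧ ∀ u ∈ w, ∃ i, u = (ppt σ i, ppt τ (f i))
  have hstart : ∀ w, F w → w ∈ start K P Q := by
    intro w hw
    rw [mem_start]
    refine ⟨hw.1, ?_, ?_⟩
    · intro u hu
      obtain ⟨i, rfl⟩ := hw.2 u hu
      exact ⟨mem_pts.mpr ⟨_, rfl⟩, mem_pts.mpr ⟨_, rfl⟩⟩
    · intro u hu v hv
      obtain ⟨i, rfl⟩ := hw.2 u hu
      obtain ⟨j, rfl⟩ := hw.2 v hv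
      have e1 : (i.val < j.val) ↔ ((f i).val < (f j).val) := (hf.lt_iff_lt (a := i) (b := j)).symm
      have e2 : ((σ.2 i).val < (σ.2 j).val) ↔ ((τ.2 (f i)).val < (τ.2 (f j)).val) := hf2 i j
      simp only [rel, ppt, Bool.and_eq_true, beq_iff_eq]
      exact ⟨by rw [decide_eq_decide]; exact e1, by rw [decide_eq_decide]; exact e2⟩
  have hiter : ∀ n w, F w → w ∈ (step K P)^[n] (start K P Q) := by
    intro n
    induction n with
    | zero => exact hstart
    | succ n ih =>
      intro w hw
      rw [Function.iterate_succ_apply', mem_step]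
      refine ⟨ih w hw, ?_⟩
      rw [good_iff]
      intro a ha p hp
      obtain ⟨i, rfl⟩ := mem_pts.mp hp
      have hw' : F (w.set a (ppt σ i, ppt τ (f i))) := by
        refine ⟨by rw [List.length_set]; exact hw.1, ?_⟩
        intro u hu
        rcases List.mem_or_eq_of_mem_set hu with h | h
        · exact hw.2 u h
        · exact ⟨i, h⟩
      refine ⟨_, ih _ hw', ?_⟩
      rw [agree_iff (by rw [List.length_set])]
      intro j hj
      refine ⟨?_, ?_⟩
      · rintro rfl
        simp
      · intro hne
        rw [List.getElem_set_ne (fun h => hne h.symm)]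
  have hF : F (List.replicate K (ppt σ ⟨0, by omega⟩, ppt τ (f ⟨0, by omega⟩))) :=
    ⟨List.length_replicate, fun u hu => ⟨⟨0, by omega⟩, List.eq_of_mem_replicate hu⟩⟩
  have := hiter (start K P Q).length _ hF
  rw [Bool.not_eq_true', List.isEmpty_eq_false_iff]
  exact List.ne_nil_of_mem this

/-- if the algorithm accepts a narrow pattern then the text contains the pattern -/
theorem contains_of_alg {K g : ℕ} (hg : 1 ≤ g) (hK : 3 * g ≤ K) {σ τ : Permutation}
    (hσ : Wid g σ) (h : alg K (values σ) (values τ) = true) : Contains τ σ := by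
  unfold alg at h
  rw [Bool.or_eq_true] at h
  by_cases h0 : σ.1 = 0
  · refine ⟨fun i => absurd i.isLt (by omega), fun i => absurd i.isLt (by omega),
      fun i => absurd i.isLt (by omega)⟩
  have h1 : (values σ).isEmpty = false := by
    rw [List.isEmpty_eq_false_iff]
    intro hcon
    have := congrArg List.length hcon
    simp [values] at this
    omega
  rw [h1] at h
  simp only [Bool.false_eq_true, Bool.not_eq_true', List.isEmpty_eq_false_iff, false_or] at h
  set P := pts (values σ) with hP
  set Q := pts (values τ) with hQ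
  obtain ⟨Hs, hHs⟩ : ∃ Hs, Hs = (step K P)^[(start K P Q).length] (start K P Q) := ⟨_, rfl⟩
  rw [← hHs] at h
  have hfix : step K P Hs = Hs := by
    rw [hHs]
    exact iterate_fixed (step K P) (fun H w => good K P H w) (fun H => rfl) _ _ le_rfl
  have hsub : ∀ w ∈ Hs, w ∈ start K P Q := by
    rw [hHs]
    have : ∀ (n : ℕ) (w), w ∈ (step K P)^[n] (start K P Q) → w ∈ start K P Q := by
      intro n
      induction n with
      | zero => exact fun w h => h
      | succ n ih =>
        intro w hw
        rw [Function.iterate_succ_apply', mem_step] at hw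
        exact ih w hw.1
    exact this _
  -- lists of length K as functions
  have hfun : ∀ w ∈ Hs, ∃ w' : Fin K → Fin σ.1 × Fin τ.1,
      w = List.ofFn fun a => (ppt σ (w' a).1, ppt τ (w' a).2) := by
    intro w hw
    obtain ⟨hl, hm, _⟩ := mem_start.mp (hsub w hw)
    have : ∀ a : Fin K, ∃ x : Fin σ.1 × Fin τ.1,
        w[a.val]'(by rw [hl]; exact a.2) = (ppt σ x.1, ppt τ x.2) := by
      intro a
      obtain ⟨h1, h2⟩ := hm _ (List.getElem_mem (by rw [hl]; exact a.2 : a.val < w.length))
      obtain ⟨i, hi⟩ := mem_pts.mp h1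
      obtain ⟨j, hj⟩ := mem_pts.mp h2
      exact ⟨(i, j), Prod.ext hi.symm hj.symm⟩
    choose w' hw' using this
    refine ⟨w', ?_⟩
    apply List.ext_getElem
    · simp [hl]
    · intro n h1 h2
      rw [List.getElem_ofFn]
      exact hw' ⟨n, by rw [← hl]; exact h1⟩
  let H : Set (Fin K → Fin σ.1 × Fin τ.1) :=
    {w | List.ofFn (fun a => (ppt σ (w a).1, ppt τ (w a).2)) ∈ Hs}
  have hrel : ∀ w ∈ H, ∀ a b, rel (ppt σ (w a).1, ppt τ (w a).2)
      (ppt σ (w b).1, ppt τ (w b).2) = true := by
    intro w hw a b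
    obtain ⟨_, _, h3⟩ := mem_start.mp (hsub _ hw)
    exact h3 _ (List.mem_ofFn.mpr ⟨a, rfl⟩) _ (List.mem_ofFn.mpr ⟨b, rfl⟩)
  have hrel' : ∀ w ∈ H, ∀ a b, ((w a).1.val < (w b).1.val ↔ (w a).2.val < (w b).2.val) ∧
      ((σ.2 (w a).1).val < (σ.2 (w b).1).val ↔ (τ.2 (w a).2).val < (τ.2 (w b).2).val) := by
    intro w hw a b
    have := hrel w hw a b
    simp only [rel, ppt, Bool.and_eq_true, beq_iff_eq, decide_eq_decide] at this
    exact this
  have hgame : Game (fun i : Fin σ.1 => (i.val : ℤ)) (fun i => ((σ.2 i).val : ℤ))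
      (fun i : Fin τ.1 => (i.val : ℤ)) (fun i => ((τ.2 i).val : ℤ)) Finset.univ K H := by
    refine ⟨?_, ?_, ?_, ?_⟩
    · intro w hw a b hab
      have h1 := (hrel' w hw a b).1
      have h2 := (hrel' w hw b a).1
      rw [hab] at h1 h2
      apply Fin.ext
      omega
    · intro w hw a b hab
      have := (hrel' w hw a b).1.mp (by exact_mod_cast hab)
      exact_mod_cast this
    · intro w hw a b hab
      have := (hrel' w hw a b).2.mp (by exact_mod_cast hab)
      exact_mod_cast this
    · intro w hw a p _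
      have hw1 : List.ofFn (fun a => (ppt σ (w a).1, ppt τ (w a).2)) ∈ step K P Hs := by
        rw [hfix]; exact hw
      rw [mem_step, good_iff] at hw1
      obtain ⟨v, hv, hag⟩ := hw1.2 a.val a.2 (ppt σ p) (mem_pts.mpr ⟨p, rfl⟩)
      obtain ⟨v', rfl⟩ := hfun v hv
      rw [agree_iff (by simp)] at hag
      refine ⟨v', hv, ?_, ?_⟩
      · intro b hb
        have h3 := (hag b.val (by simp)).2 (fun h => hb (Fin.ext h))
        simp only [List.getElem_ofFn, Prod.mk.injEq] at h3
        exact Prod.ext (ppt_injective σ h3.1).symm (ppt_injective τ h3.2).symm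
      · have h3 := (hag a.val (by simp)).1 rfl
        simp only [List.getElem_ofFn] at h3
        exact ppt_injective σ h3
  obtain ⟨w0, hw0⟩ := List.exists_mem_of_ne_nil _ h
  obtain ⟨w0', rfl⟩ := hfun w0 hw0
  obtain ⟨ψ, h1, h2, _⟩ := hgame.embed
    (fun i _ j _ h => Fin.ext (by exact_mod_cast h))
    (fun i _ j _ h => σ.2.injective (Fin.ext (by exact_mod_cast h))) hg hK hσ w0' hw0 (by
      intro p hp
      obtain ⟨_, q, _, hq, _⟩ := mem_bd.mp hp
      exact absurd (Finset.mem_univ _) hq)
  refine ⟨ψ, ?_, ?_⟩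
  · intro i j hij
    have := h1 i (Finset.mem_univ _) j (Finset.mem_univ _) (by exact_mod_cast hij)
    exact_mod_cast this
  · intro i j
    constructor
    · intro hij
      have := h2 i (Finset.mem_univ _) j (Finset.mem_univ _) (by exact_mod_cast hij)
      exact_mod_cast this
    · intro hij
      rcases lt_trichotomy (σ.2 i) (σ.2 j) with h3 | h3 | h3
      · exact h3
      · rw [σ.2.injective h3] at hij
        exact absurd hij (lt_irrefl _)
      · have := h2 j (Finset.mem_univ _) i (Finset.mem_univ _) (by exact_mod_cast h3)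
        have h4 : τ.2 (ψ j) < τ.2 (ψ i) := by exact_mod_cast this
        exact absurd h4 (lt_asymm hij)

theorem alg_iff {K g : ℕ} (hg : 1 ≤ g) (hK : 3 * g ≤ K) {σ τ : Permutation}
    (hσ : Wid g σ) : alg K (values σ) (values τ) = true ↔ Contains τ σ :=
  ⟨contains_of_alg hg hK hσ, alg_of_contains⟩

end Pool.Agent.PPM
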