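import Mathlib
import Pool.Agent.Lib_helper89.PPM.PTLib

/-!
# Every function computed in polynomial time by a machine of Mathlib is computed in polynomial time
by a register program
-/

set_option autoImplicit false
set_option linter.dupNamespace false

namespace Pool.Agent.PT

open Function N487b59b3 Turing StateTransition

/-! ### bits of the encoding as a list -/

theorem enc_listBool_append (l m : List Bool) : enc (l ++ m) = enc l ++ enc m := enc_append l m

/-- push the blocks of the bits -/
def toBitsCmd : Cmd :=
  .loop 0 isne (.seq (.push 1 true) (.seq (pushHead 0 1) (.seq (.push 1 false) (.pop 0))))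

theorem toBitsCmd_runs (S : Store) :
    Runs toBitsCmd S (update (update S 0 []) 1 ((enc (S 0 : List Bool)).reverse ++ S 1))
      (6 * (S 0).length + 1) := by
  generalize hl : S 0 = l
  induction l generalizing S with
  | nil =>
    refine (Runs.loop_f (by rw [hl]; rfl)).congr ?_ (by omega)
    funext w
    simp only [update_apply]
    split_ifs <;> simp_all [enc_nil]
  | cons b l ih =>
    have h1 := Runs.push 1 true S
    have h2 := pushHead_runs 0 1 (update S 1 (true :: S 1)) (b := b) (l := l)
      (by rw [update_of_ne (by decide), hl])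
    rw [update_self, update_idem] at h2
    have h3 := Runs.push 1 false (update S 1 (b :: true :: S 1))
    rw [update_self, update_idem] at h3
    have h4 := Runs.pop 0 (update S 1 (false :: b :: true :: S 1))
    rw [update_of_ne (by decide), hl, List.tail_cons] at h4
    have h5 := ih (update (update S 1 (false :: b :: true :: S 1)) 0 l) (by rw [update_self])
    refine (Runs.loop_t (by rw [hl]; rfl) (h1.seq (h2.seq (h3.seq h4))) h5).congr ?_
      (by simp; omega)
    have e : enc (b :: l) = true :: b :: false :: enc l := rfl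
    funext w
    simp only [update_apply, e]
    split_ifs <;> simp_all

theorem PT.toBits {α : Type} [N487b59b3 α] : PT (fun a : α => (enc a : List Bool)) := by
  refine ⟨.seq toBitsCmd (moveRev 1 0), 30 * Polynomial.X + 30, fun a => ?_⟩
  have h1 := toBitsCmd_runs (single 0 (enc a))
  have h2 := moveRev_runs (src := 1) (dst := 0) (by decide)
    (update (update (single 0 (enc a)) 0 []) 1
      ((enc (single 0 (enc a) 0 : List Bool)).reverse ++ single 0 (enc a) 1))
  have hlen : ∀ l : List Bool, (enc l).length = 3 * l.length := by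
    intro l
    induction l with
    | nil => rfl
    | cons b l ih => rw [length_enc_cons, ih, enc_bool]; simp; omega
  refine (h1.seq h2).congr ?_ ?_
  · funext w
    simp only [update_apply, single]
    split_ifs <;> simp_all
  · simp [single, hlen]
    omega

/-- the inverse program -/
def ofBitsCmd : Cmd :=
  .loop 0 isne (.seq (.pop 0) (.seq (pushHead 0 1) (.seq (.pop 0) (.pop 0))))

theorem ofBitsCmd_runs (l : List Bool) (S : Store) (hS : S 0 = enc l) :
    Runs ofBitsCmd S (update (update S 0 []) 1 (l.reverse ++ S 1))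
      (6 * l.length + 1) := by
  induction l generalizing S with
  | nil =>
    refine (Runs.loop_f (by rw [hS]; rfl)).congr ?_ (by omega)
    funext w
    simp only [update_apply]
    split_ifs <;> simp_all [enc_nil]
  | cons b l ih =>
    have e : enc (b :: l) = true :: b :: false :: enc l := rfl
    rw [e] at hS
    have h1 := Runs.pop 0 S
    rw [hS, List.tail_cons] at h1
    have h2 := pushHead_runs 0 1 (update S 0 (b :: false :: enc l)) (b := b) (l := false :: enc l)
      (by rw [update_self])
    rw [update_of_ne (by decide)] at h2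
    have h3 := Runs.pop 0 (update (update S 0 (b :: false :: enc l)) 1 (b :: S 1))
    rw [update_of_ne (by decide), update_self, List.tail_cons] at h3
    have h4 := Runs.pop 0 (update (update (update S 0 (b :: false :: enc l)) 1 (b :: S 1)) 0
      (false :: enc l))
    rw [update_self, List.tail_cons, update_idem] at h4
    have h5 := ih (update (update (update S 0 (b :: false :: enc l)) 1 (b :: S 1)) 0 (enc l))
      (by rw [update_self])
    refine (Runs.loop_t (by rw [hS]; rfl) (h1.seq (h2.seq (h3.seq h4))) h5).congr ?_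
      (by simp; omega)
    funext w
    simp only [update_apply]
    split_ifs <;> simp_all

theorem length_enc_listBool (l : List Bool) : (enc l).length = 3 * l.length := by
  induction l with
  | nil => rfl
  | cons b l ih => rw [length_enc_cons, ih, enc_bool]; simp; omega

theorem PT.ofBits {α β : Type} [N487b59b3 α] [N487b59b3 β] {f : α → β}
    (h : PT (fun a => (enc (f a) : List Bool))) : PT f := by
  obtain ⟨c, p, hc⟩ := h
  refine ⟨.seq c (.seq ofBitsCmd (moveRev 1 0)), p + 30 * (Polynomial.X + p) + 30, fun a => ?_⟩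
  have h0 := hc a
  have hb := h0.length_le 0
  simp only [single, if_true] at hb
  have h1 := ofBitsCmd_runs (enc (f a)) (single 0 (enc (enc (f a)))) (by simp [single])
  have h2 := moveRev_runs (src := 1) (dst := 0) (by decide)
    (update (update (single 0 (enc (enc (f a)))) 0 []) 1
      ((enc (f a)).reverse ++ single 0 (enc (enc (f a))) 1))
  refine (h0.seq (h1.seq h2)).congr ?_ ?_
  · funext w
    simp only [update_apply, single]
    split_ifs <;> simp_all
  · rw [length_enc_listBool] at hb
    simp only [Polynomial.eval_add, Polynomial.eval_mul, Polynomial.eval_X,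
      Polynomial.eval_ofNat]
    simp [single]
    omega

/-! ### case distinctions, modification of entries, polynomials -/

theorem PT.natCases {α β : Type} [N487b59b3 α] [N487b59b3 β] (m : ℕ) : ∀ {g : α → U}
    {G : ℕ → α → β}, PT g → (∀ n, PT (G n)) → (∀ n, m ≤ n → G n = G m) →
    PT (fun a => G (g a).val a) := by
  induction m with
  | zero =>
    intro g G _ hG hm
    exact (hG 0).congr fun a => (congrFun (hm (g a).val (Nat.zero_le _)) a).symm
  | succ m ih =>
    intro g G hg hG hm
    have h := ih (G := fun n => G (n + 1)) hg.upred (fun n => hG (n + 1))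
      (fun n hn => hm (n + 1) (by omega))
    refine (PT.ite hg.uzero (hG 0) h).congr fun a => ?_
    by_cases h0 : (g a).val = 0
    · simp [h0]
    · simp only [h0, decide_false, Bool.false_eq_true, if_false]
      rw [Nat.sub_add_cancel (by omega)]

theorem PT.modify {α : Type} [N487b59b3 α] [Inhabited α] {f : α → α} (hf : PT f) (i : ℕ) :
    PT (fun T : List α => T.modify i f) := by
  induction i with
  | zero =>
    have h : PT (fun T : List α => if T.isEmpty then T else f (T.headD default) :: T.tail) :=
      PT.ite PT.isEmpty PT.id (PT.cons (hf.comp (PT.headD.comp ((PT.const default).pair PT.id)))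
        PT.tail)
    refine h.congr fun T => ?_
    cases T <;> simp
  | succ i ih =>
    have h : PT (fun T : List α => if T.isEmpty then T else
        (T.headD default) :: (T.tail.modify i f)) :=
      PT.ite PT.isEmpty PT.id (PT.cons (PT.headD.comp ((PT.const default).pair PT.id))
        (ih.comp PT.tail))
    refine h.congr fun T => ?_
    cases T <;> simp

theorem length_enc_modify {α : Type} [N487b59b3 α] {f : α → α} {c : ℕ}
    (hf : ∀ s, (enc (f s)).length ≤ (enc s).length + c) (i : ℕ) (T : List α) :
    (enc (T.modify i f)).length ≤ (enc T).length + 2 * c := by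
  induction T generalizing i with
  | nil => simp
  | cons s T ih =>
    cases i with
    | zero =>
      rw [List.modify_zero_cons, length_enc_cons, length_enc_cons]
      have := hf s
      omega
    | succ i =>
      rw [List.modify_succ_cons, length_enc_cons, length_enc_cons]
      have := ih i
      omega

theorem PT.getD {α : Type} [N487b59b3 α] (d : α) (i : ℕ) :
    PT (fun T : List α => T.getD i d) := by
  induction i with
  | zero =>
    refine (PT.headD.comp ((PT.const d).pair PT.id)).congr fun T => ?_
    cases T <;> simp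
  | succ i ih =>
    refine (ih.comp PT.tail).congr fun T => ?_
    cases T <;> simp

theorem PT.upow {α : Type} [N487b59b3 α] {f : α → U} (hf : PT f) (n : ℕ) :
    PT (fun a => U.mk ((f a).val ^ n)) := by
  induction n with
  | zero => exact (PT.const (U.mk 1)).congr fun a => by simp
  | succ n ih => exact (ih.umul hf).congr fun a => by simp [pow_succ]

theorem PT.upoly {α : Type} [N487b59b3 α] {f : α → U} (hf : PT f) (p : Polynomial ℕ) :
    PT (fun a => U.mk (p.eval (f a).val)) := by
  induction p using Polynomial.induction_on' with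
  | add p q hp hq => exact (hp.uadd hq).congr fun a => by simp
  | monomial n c =>
    exact ((PT.const (U.mk c)).umul (hf.upow n)).congr fun a => by simp

/-! ### codings of the symbols -/

/-- a coding of the symbols of a finite set by positive numbers -/
structure Coding {K : Type} (Γ : K → Type) (F : Set (Σ k, Γ k)) where
  /-- the code of a symbol -/
  cod : (k : K) → Γ k → ℕ
  /-- decoding -/
  dec : (k : K) → ℕ → Option (Γ k)
  /-- bound for the codes -/
  B : ℕ
  cod_le : ∀ k x, cod k x ≤ B
  dec_cod : ∀ k x, (⟨k, x⟩ : Σ k, Γ k) ∈ F → dec k (cod k x) = some x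
  dec_zero : ∀ k, dec k 0 = none
  dec_large : ∀ k n, B < n → dec k n = none

theorem exists_coding {K : Type} (Γ : K → Type) (F : Set (Σ k, Γ k)) (hF : F.Finite) :
    Nonempty (Coding Γ F) := by
  classical
  have := hF.to_subtype
  obtain ⟨m, ⟨e⟩⟩ := Finite.exists_equiv_fin F
  let cod : (k : K) → Γ k → ℕ := fun k x =>
    if h : (⟨k, x⟩ : Σ k, Γ k) ∈ F then (e ⟨_, h⟩).val + 1 else 0
  have hcod : ∀ k x (h : (⟨k, x⟩ : Σ k, Γ k) ∈ F), cod k x = (e ⟨_, h⟩).val + 1 :=
    fun k x h => dif_pos h
  have hle : ∀ k x, cod k x ≤ m := by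
    intro k x
    by_cases h : (⟨k, x⟩ : Σ k, Γ k) ∈ F
    · rw [hcod k x h]
      exact (e ⟨_, h⟩).2
    · exact (dif_neg h).le.trans (Nat.zero_le _)
  have hinj : ∀ k y x, (⟨k, y⟩ : Σ k, Γ k) ∈ F → (⟨k, x⟩ : Σ k, Γ k) ∈ F →
      cod k y = cod k x → y = x := by
    intro k y x hy hx h3
    have h2 : e ⟨_, hy⟩ = e ⟨_, hx⟩ := by
      apply Fin.ext
      rw [hcod _ _ hy, hcod _ _ hx] at h3
      omega
    have h4 := congrArg Subtype.val (e.injective h2)
    simpa only [Sigma.mk.injEq, heq_eq_eq, true_and] using h4
  refine ⟨{ cod := cod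
            dec := fun k n => if h : ∃ x, (⟨k, x⟩ : Σ k, Γ k) ∈ F ∧ cod k x = n then
              some h.choose else none
            B := m
            cod_le := hle
            dec_cod := ?_
            dec_zero := ?_
            dec_large := ?_ }⟩
  · intro k x hx
    have h : ∃ y, (⟨k, y⟩ : Σ k, Γ k) ∈ F ∧ cod k y = cod k x := ⟨x, hx, rfl⟩
    rw [dif_pos h]
    exact congrArg some (hinj k _ _ h.choose_spec.1 hx h.choose_spec.2)
  · intro k
    rw [dif_neg]
    rintro ⟨x, hx, h0⟩
    rw [hcod _ _ hx] at h0
    omega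
  · intro k n hn
    rw [dif_neg]
    rintro ⟨x, _, h0⟩
    have := hle k x
    omega

/-! ### the simulation -/

section sim

variable {K Λ σ : Type} {Γ : K → Type}

/-- the symbols pushed by a statement -/
def syms : TM2.Stmt Γ Λ σ → Set (Σ k, Γ k)
  | .push k f q => Set.range (fun v => (⟨k, f v⟩ : Σ k, Γ k)) ∪ syms q
  | .peek _ _ q => syms q
  | .pop _ _ q => syms q
  | .load _ q => syms q
  | .branch _ q₁ q₂ => syms q₁ ∪ syms q₂
  | .goto _ => ∅
  | .halt => ∅

theorem syms_finite [Finite σ] (q : TM2.Stmt Γ Λ σ) : (syms q).Finite := by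
  induction q with
  | push k f q ih => exact (Set.finite_range _).union ih
  | peek k f q ih => exact ih
  | pop k f q ih => exact ih
  | load f q ih => exact ih
  | branch f q₁ q₂ ih₁ ih₂ => exact ih₁.union ih₂
  | goto f => exact Set.finite_empty
  | halt => exact Set.finite_empty

variable {F : Set (Σ k, Γ k)} (cd : Coding Γ F) (ι : K → ℕ) (sc : Option Λ → σ → ℕ)

/-- the code of the head of a stack, `0` for the empty stack -/
def headCode (i : ℕ) (T : List (List U)) : ℕ := ((T.getD i []).headD ⟨0⟩).val

/-- the effect of a statement on the coded stacks -/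
def saux : TM2.Stmt Γ Λ σ → σ → List (List U) → U × List (List U)
  | .push k f q, v, T => saux q v (T.modify (ι k) (fun s => U.mk (cd.cod k (f v)) :: s))
  | .peek k f q, v, T => saux q (f v (cd.dec k (headCode (ι k) T))) T
  | .pop k f q, v, T => saux q (f v (cd.dec k (headCode (ι k) T))) (T.modify (ι k) List.tail)
  | .load a q, v, T => saux q (a v) T
  | .branch f q₁ q₂, v, T => cond (f v) (saux q₁ v T) (saux q₂ v T)
  | .goto f, v, T => (⟨sc (some (f v)) v⟩, T)
  | .halt, v, T => (⟨sc none v⟩, T)

theorem pt_headCode (i : ℕ) : PT (fun T : List (List U) => U.mk (headCode i T)) :=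
  (PT.headD.comp ((PT.const (U.mk 0)).pair (PT.getD ([] : List U) i))).congr fun _ => rfl

theorem pt_saux (q : TM2.Stmt Γ Λ σ) : ∀ v : σ, PT (fun T => saux cd ι sc q v T) := by
  induction q with
  | push k f q ih =>
    intro v
    exact (ih v).comp (PT.modify (PT.cons (PT.const _) PT.id) (ι k))
  | peek k f q ih =>
    intro v
    refine (PT.natCases (cd.B + 1) (g := fun T : List (List U) => U.mk (headCode (ι k) T))
      (G := fun n T => saux cd ι sc q (f v (cd.dec k n)) T) (pt_headCode _)
      (fun n => ih _) ?_).congr fun _ => rfl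
    intro n hn
    simp only [cd.dec_large k n (by omega), cd.dec_large k (cd.B + 1) (by omega)]
  | pop k f q ih =>
    intro v
    refine (PT.natCases (cd.B + 1) (g := fun T : List (List U) => U.mk (headCode (ι k) T))
      (G := fun n T => saux cd ι sc q (f v (cd.dec k n)) (T.modify (ι k) List.tail))
      (pt_headCode _) (fun n => (ih _).comp (PT.modify PT.tail (ι k))) ?_).congr fun _ => rfl
    intro n hn
    simp only [cd.dec_large k n (by omega), cd.dec_large k (cd.B + 1) (by omega)]
  | load a q ih => intro v; exact ih (a v)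
  | branch f q₁ q₂ ih₁ ih₂ =>
    intro v
    cases hf : f v with
    | true => exact (ih₁ v).congr fun T => by simp only [saux, hf, cond_true]
    | false => exact (ih₂ v).congr fun T => by simp only [saux, hf, cond_false]
  | goto f => intro v; exact (PT.const _).pair PT.id
  | halt => intro v; exact (PT.const _).pair PT.id

theorem length_saux {N : ℕ} (hsc : ∀ l v, sc l v ≤ N) (q : TM2.Stmt Γ Λ σ) :
    ∃ c : ℕ, ∀ (v : σ) (T : List (List U)),
      (enc (saux cd ι sc q v T)).length ≤ (enc T).length + c := by
  have hgh : ∀ (l : Option Λ) (v : σ) (T : List (List U)),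
      (enc ((⟨sc l v⟩, T) : U × List (List U))).length ≤ (enc T).length + (2 * N + 1) := by
    intro l v T
    rw [length_enc_pair, length_enc_U]
    have := hsc l v
    simp only
    omega
  induction q with
  | push k f q ih =>
    obtain ⟨c, hc⟩ := ih
    refine ⟨c + 2 * (2 * cd.B + 1), fun v T => ?_⟩
    have h1 := hc v (T.modify (ι k) (fun s => U.mk (cd.cod k (f v)) :: s))
    have h2 := length_enc_modify (f := fun s => U.mk (cd.cod k (f v)) :: s)
      (c := 2 * cd.B + 1) (by
        intro s
        rw [length_enc_cons, length_enc_U]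
        have := cd.cod_le k (f v)
        simp only
        omega) (ι k) T
    simp only [saux]
    omega
  | peek k f q ih =>
    obtain ⟨c, hc⟩ := ih
    exact ⟨c, fun v T => hc _ T⟩
  | pop k f q ih =>
    obtain ⟨c, hc⟩ := ih
    refine ⟨c, fun v T => ?_⟩
    have h1 := hc (f v (cd.dec k (headCode (ι k) T))) (T.modify (ι k) List.tail)
    have h2 := length_enc_modify (f := (List.tail : List U → List U)) (c := 0) (by
      intro s
      cases s with
      | nil => simp
      | cons a s => rw [List.tail_cons, length_enc_cons]; omega) (ι k) T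
    simp only [saux]
    omega
  | load a q ih =>
    obtain ⟨c, hc⟩ := ih
    exact ⟨c, fun v T => hc _ T⟩
  | branch f q₁ q₂ ih₁ ih₂ =>
    obtain ⟨c₁, hc₁⟩ := ih₁
    obtain ⟨c₂, hc₂⟩ := ih₂
    refine ⟨c₁ + c₂, fun v T => ?_⟩
    have h1 := hc₁ v T
    have h2 := hc₂ v T
    cases hf : f v
    · simp only [saux, hf, cond_false]; omega
    · simp only [saux, hf, cond_true]; omega
  | goto f => exact ⟨2 * N + 1, fun v T => hgh _ v T⟩
  | halt => exact ⟨2 * N + 1, fun v T => hgh _ v T⟩

/-- the coded stacks `T` represent the stacks `S` -/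
def Rep (S : ∀ k, List (Γ k)) (T : List (List U)) : Prop :=
  ∀ k, ι k < T.length ∧ T.getD (ι k) [] = (S k).map (fun x => U.mk (cd.cod k x)) ∧
    ∀ x ∈ S k, (⟨k, x⟩ : Σ k, Γ k) ∈ F

theorem Rep.dec_head {S : ∀ k, List (Γ k)} {T : List (List U)} (h : Rep cd ι S T) (k : K) :
    cd.dec k (headCode (ι k) T) = (S k).head? := by
  obtain ⟨_, h1, h2⟩ := h k
  rw [headCode, h1]
  cases hS : S k with
  | nil => simp [cd.dec_zero]
  | cons x s =>
    simp only [List.map_cons, List.headD_cons, List.head?_cons]
    exact cd.dec_cod k x (h2 x (by rw [hS]; exact List.mem_cons_self))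

theorem getD_modify {α : Type} (d : α) (f : α → α) (i j : ℕ) (T : List α) (hi : i < T.length) :
    (T.modify i f).getD j d = if i = j then f (T.getD j d) else T.getD j d := by
  rw [List.getD_eq_getElem?_getD, List.getD_eq_getElem?_getD, List.getElem?_modify]
  by_cases hij : i = j
  · subst hij
    rw [List.getElem?_eq_getElem hi]
    simp
  · simp [hij]

theorem Rep.update [DecidableEq K] (hι : Injective ι) {S : ∀ k, List (Γ k)} {T : List (List U)}
    (h : Rep cd ι S T) (k : K) (s : List (Γ k)) (f : List U → List U)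
    (hs : f ((S k).map (fun x => U.mk (cd.cod k x))) = s.map (fun x => U.mk (cd.cod k x)))
    (hF : ∀ x ∈ s, (⟨k, x⟩ : Σ k, Γ k) ∈ F) :
    Rep cd ι (Function.update S k s) (T.modify (ι k) f) := by
  intro k'
  obtain ⟨h0, h1, h2⟩ := h k'
  refine ⟨by simpa using h0, ?_, ?_⟩
  · rw [getD_modify _ _ _ _ _ (h k).1]
    by_cases hk : k = k'
    · subst hk
      rw [if_pos rfl, h1, Function.update_self, hs]
    · rw [if_neg (fun e => hk (hι e)), h1, Function.update_of_ne (Ne.symm hk)]
  · by_cases hk : k = k'
    · subst hk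
      rw [Function.update_self]
      exact hF
    · rw [Function.update_of_ne (Ne.symm hk)]
      exact h2

theorem saux_correct [DecidableEq K] (hι : Injective ι) (q : TM2.Stmt Γ Λ σ) (hq : syms q ⊆ F) :
    ∀ (v : σ) (S : ∀ k, List (Γ k)) (T : List (List U)), Rep cd ι S T →
      (saux cd ι sc q v T).1.val = sc (TM2.stepAux q v S).l (TM2.stepAux q v S).var ∧
      Rep cd ι (TM2.stepAux q v S).stk (saux cd ι sc q v T).2 := by
  induction q with
  | push k f q ih =>
    intro v S T h
    refine ih (fun x hx => hq (Or.inr hx)) v _ _ (h.update cd ι hι k (f v :: S k) _ rfl ?_)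
    intro x hx
    rcases List.mem_cons.mp hx with rfl | hx
    · exact hq (Or.inl ⟨v, rfl⟩)
    · exact (h k).2.2 x hx
  | peek k f q ih =>
    intro v S T h
    simp only [saux, TM2.stepAux]
    rw [h.dec_head cd ι k]
    exact ih hq _ _ _ h
  | pop k f q ih =>
    intro v S T h
    simp only [saux, TM2.stepAux]
    rw [h.dec_head cd ι k]
    refine ih hq _ _ _ (h.update cd ι hι k (S k).tail _ ?_ ?_)
    · rw [List.map_tail]
    · intro x hx
      exact (h k).2.2 x (List.mem_of_mem_tail hx)
  | load a q ih =>
    intro v S T h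
    exact ih hq _ _ _ h
  | branch f q₁ q₂ ih₁ ih₂ =>
    intro v S T h
    have h1 := ih₁ (fun x hx => hq (Or.inl hx)) v S T h
    have h2 := ih₂ (fun x hx => hq (Or.inr hx)) v S T h
    cases hf : f v
    · simp only [saux, TM2.stepAux, hf, cond_false]
      exact h2
    · simp only [saux, TM2.stepAux, hf, cond_true]
      exact h1
  | goto f => intro v S T h; exact ⟨rfl, h⟩
  | halt => intro v S T h; exact ⟨rfl, h⟩

/-- one step on coded configurations -/
def sstep (M : Λ → TM2.Stmt Γ Λ σ) (sd : ℕ → Option (Option Λ × σ)) (c : U × List (List U)) :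
    U × List (List U) :=
  match sd c.1.val with
  | some (some l, v) => saux cd ι sc (M l) v c.2
  | _ => c

theorem pt_sstep (M : Λ → TM2.Stmt Γ Λ σ) (sd : ℕ → Option (Option Λ × σ)) (N : ℕ)
    (hsd : ∀ n, N ≤ n → sd n = none) :
    PT (fun c : Bool × (U × List (List U)) => sstep cd ι sc M sd c.2) := by
  have h1 : PT (fun c : U × List (List U) => sstep cd ι sc M sd c) := by
    refine (PT.natCases N (g := fun c : U × List (List U) => c.1)
      (G := fun n c => match sd n with
        | some (some l, v) => saux cd ι sc (M l) v c.2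
        | _ => c) PT.fst ?_ ?_).congr fun _ => rfl
    · intro n
      rcases sd n with _ | ⟨_ | l, v⟩
      · exact PT.id
      · exact PT.id
      · exact (pt_saux cd ι sc (M l) v).comp PT.snd
    · intro n hn
      simp only [hsd n hn, hsd N le_rfl]
  exact h1.comp PT.snd

theorem length_sstep [Finite Λ] (M : Λ → TM2.Stmt Γ Λ σ) (sd : ℕ → Option (Option Λ × σ)) (N : ℕ)
    (hsc : ∀ l v, sc l v ≤ N) :
    ∃ c : ℕ, ∀ x : U × List (List U),
      (enc (sstep cd ι sc M sd x)).length ≤ (enc x).length + c := by
  choose c hc using fun l => length_saux cd ι sc hsc (M l)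
  obtain ⟨C, hC⟩ := (Set.finite_range c).bddAbove
  refine ⟨C, fun x => ?_⟩
  unfold sstep
  split
  · next l v _ =>
    have h1 := hc l v x.2
    have h2 := hC ⟨l, rfl⟩
    have h3 : (enc x).length = 2 * (enc x.1).length + 1 + (enc x.2).length :=
      length_enc_pair x.1 x.2
    omega
  · omega

/-- the coded configuration represents the configuration -/
def RepCfg (c : TM2.Cfg Γ Λ σ) (x : U × List (List U)) : Prop :=
  x.1.val = sc c.l c.var ∧ Rep cd ι c.stk x.2

theorem sstep_correct [DecidableEq K] (hι : Injective ι) (M : Λ → TM2.Stmt Γ Λ σ)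
    (hM : ∀ l, syms (M l) ⊆ F) (sd : ℕ → Option (Option Λ × σ))
    (hsd : ∀ l v, sd (sc l v) = some (l, v)) {l : Λ} {v : σ} {S : ∀ k, List (Γ k)}
    {x : U × List (List U)} (h : RepCfg cd ι sc ⟨some l, v, S⟩ x) :
    RepCfg cd ι sc (TM2.stepAux (M l) v S) (sstep cd ι sc M sd x) := by
  have h1 : sd x.1.val = some (some l, v) := by rw [h.1, hsd]
  have h2 : sstep cd ι sc M sd x = saux cd ι sc (M l) v x.2 := by
    unfold sstep
    rw [h1]
  rw [h2]
  exact saux_correct cd ι sc hι (M l) (hM l) v S x.2 h.2

theorem sstep_halt (M : Λ → TM2.Stmt Γ Λ σ) (sd : ℕ → Option (Option Λ × σ))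
    (hsd : ∀ l v, sd (sc l v) = some (l, v)) {c : TM2.Cfg Γ Λ σ} (hc : c.l = none)
    {x : U × List (List U)} (h : RepCfg cd ι sc c x) : sstep cd ι sc M sd x = x := by
  have h1 : sd x.1.val = some (none, c.var) := by rw [h.1, hc, hsd]
  unfold sstep
  rw [h1]

theorem iterate_none {α : Type} (f : α → Option α) (t : ℕ) :
    (flip bind f)^[t] none = none := by
  induction t with
  | zero => rfl
  | succ t ih => rw [Function.iterate_succ_apply]; exact ih

theorem run_correct [DecidableEq K] (hι : Injective ι) (M : Λ → TM2.Stmt Γ Λ σ)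
    (hM : ∀ l, syms (M l) ⊆ F) (sd : ℕ → Option (Option Λ × σ))
    (hsd : ∀ l v, sd (sc l v) = some (l, v)) (t : ℕ) :
    ∀ (c c' : TM2.Cfg Γ Λ σ) (x : U × List (List U)) (m : ℕ), RepCfg cd ι sc c x →
      (flip bind (TM2.step M))^[t] (some c) = some c' → c'.l = none → t ≤ m →
      RepCfg cd ι sc c' ((sstep cd ι sc M sd)^[m] x) := by
  have hfix : ∀ (c : TM2.Cfg Γ Λ σ) (x : U × List (List U)) (m : ℕ), RepCfg cd ι sc c x →
      c.l = none → (sstep cd ι sc M sd)^[m] x = x := fun c x m h hc =>
    Function.iterate_fixed (sstep_halt cd ι sc M sd hsd hc h) m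
  induction t with
  | zero =>
    intro c c' x m h h1 h2 _
    have h3 : some c = some c' := h1
    rw [Option.some.injEq] at h3
    subst h3
    rw [hfix c x m h h2]
    exact h
  | succ t ih =>
    intro c c' x m h h1 h2 hm
    obtain ⟨m, rfl⟩ : ∃ k, m = k + 1 := ⟨m - 1, by omega⟩
    rw [Function.iterate_succ_apply] at h1 ⊢
    rcases c with ⟨_ | l, v, S⟩
    · exfalso
      have h3 : flip bind (TM2.step M) (some (⟨none, v, S⟩ : TM2.Cfg Γ Λ σ)) = none := rfl
      rw [h3, iterate_none] at h1
      exact Option.some_ne_none _ h1.symm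
    · have h3 : flip bind (TM2.step M) (some (⟨some l, v, S⟩ : TM2.Cfg Γ Λ σ)) =
        some (TM2.stepAux (M l) v S) := rfl
      rw [h3] at h1
      exact ih _ c' _ m (sstep_correct cd ι sc hι M hM sd hsd h) h1 h2 (by omega)

end sim

/-- a numbering of a finite type -/
theorem exists_numbering (α : Type) [Finite α] : ∃ (N : ℕ) (c : α → ℕ) (d : ℕ → Option α),
    (∀ a, c a < N) ∧ (∀ a, d (c a) = some a) ∧ ∀ n, N ≤ n → d n = none := by
  obtain ⟨N, ⟨e⟩⟩ := Finite.exists_equiv_fin α
  refine ⟨N, fun a => (e a).val, fun n => if h : n < N then some (e.symm ⟨n, h⟩) else none,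
    fun a => (e a).2, fun a => (dif_pos (e a).2).trans ?_, fun n hn => dif_neg (by omega)⟩
  simp

theorem initList_self (tm : FinTM2) (s : List (tm.Γ tm.k₀)) : (initList tm s).stk tm.k₀ = s := by
  unfold initList
  simp only [dite_true]
  rfl

theorem initList_of_ne (tm : FinTM2) (s : List (tm.Γ tm.k₀)) {k : tm.K} (h : k ≠ tm.k₀) :
    (initList tm s).stk k = [] := by
  unfold initList
  simp only [h, dite_false]

theorem haltList_self (tm : FinTM2) (s : List (tm.Γ tm.k₁)) : (haltList tm s).stk tm.k₁ = s := by
  unfold haltList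
  simp only [dite_true]
  rfl

theorem PT.of_isPolyTime {α β : Type} [N487b59b3 α] [N487b59b3 β] {f : α → β}
    (h : N68a2faeb.IsPolyTime f) : PT f := by
  classical
  obtain ⟨⟨⟨tm, inA, outA⟩, p, hout⟩⟩ := h
  simp only at hout
  have := tm.ΛFin
  have := tm.σFin
  have := tm.kFin
  have := tm.Γk₀Fin
  -- the symbols
  let F : Set (Σ k, tm.Γ k) := (⋃ l, syms (tm.m l)) ∪
    Set.range (fun x : tm.Γ tm.k₀ => (⟨tm.k₀, x⟩ : Σ k, tm.Γ k))
  have hF : F.Finite := (Set.finite_iUnion fun l => syms_finite (tm.m l)).union
    (Set.finite_range _)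
  have hM : ∀ l, syms (tm.m l) ⊆ F := fun l x hx => Or.inl (Set.mem_iUnion.mpr ⟨l, hx⟩)
  obtain ⟨cd⟩ := exists_coding tm.Γ F hF
  obtain ⟨n, e, _, he, he2, _⟩ := exists_numbering tm.K
  let ι : tm.K → ℕ := fun k => if k = tm.k₀ then 0 else e k + 1
  have heinj : Function.Injective e := fun a b hab => by
    have := he2 a
    rw [hab, he2 b] at this
    exact (Option.some.inj this).symm
  have hι : Function.Injective ι := by
    intro a b hab
    simp only [ι] at hab
    split_ifs at hab with h1 h2 h2
    · rw [h1, h2]
    · exact heinj (by omega)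
  have hι0 : ι tm.k₀ = 0 := if_pos rfl
  obtain ⟨N, sc', sd, hsc, hsd, hsd2⟩ := exists_numbering (Option tm.Λ × tm.σ)
  let sc : Option tm.Λ → tm.σ → ℕ := fun l v => sc' (l, v)
  let ini : List Bool → U × List (List U) := fun l =>
    (⟨sc (some tm.main) tm.initialState⟩,
      (l.map fun b => U.mk (cd.cod tm.k₀ (inA.invFun b))) :: List.replicate n [])
  have hini : ∀ l : List Bool, RepCfg cd ι sc (initList tm (List.map inA.invFun l)) (ini l) := by
    intro l
    refine ⟨rfl, fun k => ?_⟩
    by_cases hk : k = tm.k₀
    · subst hk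
      rw [initList_self, hι0]
      refine ⟨by simp [ini], ?_, fun x _ => Or.inr ⟨x, rfl⟩⟩
      simp [ini]
    · rw [initList_of_ne tm _ hk]
      have h1 : ι k = e k + 1 := if_neg hk
      rw [h1]
      have h2 := he k
      refine ⟨by simpa [ini] using h2, ?_, by simp⟩
      simp only [ini, List.getD_cons_succ, List.map_nil]
      rw [List.getD_eq_getElem?_getD, List.getElem?_replicate, if_pos h2]
      rfl
  let dbit : U → Bool := fun u => (cd.dec tm.k₁ u.val).elim false outA
  have hdbit : PT (fun q : Bool × U => dbit q.2) := by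
    have h1 : PT dbit := by
      refine (PT.natCases (cd.B + 1) (g := fun u : U => u)
        (G := fun n _ => (cd.dec tm.k₁ n).elim false outA) PT.id (fun n => PT.const _) ?_).congr
        fun _ => rfl
      intro n hn
      simp only [cd.dec_large tm.k₁ n (by omega), cd.dec_large tm.k₁ (cd.B + 1) (by omega)]
    exact h1.comp PT.snd
  obtain ⟨c, hc⟩ := length_sstep cd ι sc tm.m sd N (fun l v => (hsc (l, v)).le)
  have hpt : PT (fun a : α => ((((sstep cd ι sc tm.m sd)^[p.eval (enc a).length]
      (ini (enc a))).2.getD (ι tm.k₁) []).map dbit)) := by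
    have h1 : PT (fun a : α => ini (enc a)) := by
      refine (PT.const _).pair (PT.cons ?_ (PT.const _))
      have h2 : PT (fun q : Bool × Bool => U.mk (cd.cod tm.k₀ (inA.invFun q.2))) :=
        (PT.ite PT.snd (PT.const (U.mk (cd.cod tm.k₀ (inA.invFun true))))
          (PT.const (U.mk (cd.cod tm.k₀ (inA.invFun false))))).congr fun q => by
            cases q.2 <;> rfl
      exact PT.map (e := fun _ => true) h2 (PT.const true) PT.toBits
    have h3 : PT (fun a : α => U.mk (p.eval (enc a).length)) :=
      (PT.length (PT.toBits (α := α))).upoly p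
    have h4 := PT.iter (ε := Bool) (e := fun _ : α => true)
      (pt_sstep cd ι sc tm.m sd N hsd2) (Polynomial.C c) (fun e s => by simpa using hc s)
      (PT.const true) h1 h3
    exact PT.map (e := fun _ => true) hdbit (PT.const true)
      ((PT.getD ([] : List U) (ι tm.k₁)).comp h4.comp_snd)
  refine PT.ofBits (hpt.congr fun a => ?_)
  have h1 := hout a
  have h2 := run_correct cd ι sc hι tm.m hM sd (fun l v => hsd (l, v)) h1.steps
    _ (haltList tm (List.map outA.invFun (enc (f a)))) _ (p.eval (enc a).length) (hini (enc a))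
    h1.evals_in_steps rfl h1.steps_le_m
  obtain ⟨_, h3, h4⟩ := h2.2 tm.k₁
  rw [haltList_self] at h3 h4
  rw [h3, List.map_map, List.map_map]
  have h5 : ∀ b ∈ enc (f a), ((dbit ∘ fun x => U.mk (cd.cod tm.k₁ x)) ∘ outA.invFun) b = b := by
    intro b hb
    simp only [Function.comp, dbit]
    rw [cd.dec_cod tm.k₁ _ (h4 _ (List.mem_map_of_mem hb))]
    exact outA.right_inv b
  exact (List.map_congr_left h5).trans (List.map_id _)

end Pool.Agent.PT
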