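import Mathlib
import Pool.Agent.Lib_helper89.PPM.Sim

/-!
# There are only countably many polynomial-time functions; P is contained in NP
-/

set_option autoImplicit false
set_option linter.dupNamespace false

namespace Pool.Agent.PT

open Function N487b59b3

/-- the code of a test -/
def testCode (t : Option Bool → Bool) : ℕ :=
  Nat.pair (t none).toNat (Nat.pair (t (some false)).toNat (t (some true)).toNat)

theorem toNat_inj {a b : Bool} (h : a.toNat = b.toNat) : a = b := by
  cases a <;> cases b <;> simp_all

theorem testCode_inj {s t : Option Bool → Bool} (h : testCode s = testCode t) : s = t := by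
  unfold testCode at h
  rw [Nat.pair_eq_pair, Nat.pair_eq_pair] at h
  funext o
  rcases o with _ | _ | _
  · exact toNat_inj h.1
  · exact toNat_inj h.2.1
  · exact toNat_inj h.2.2

/-- the code of a program -/
def Cmd.code : Cmd → ℕ
  | .push v b => Nat.pair 0 (Nat.pair v b.toNat)
  | .pop v => Nat.pair 1 v
  | .skip => Nat.pair 2 0
  | .seq p q => Nat.pair 3 (Nat.pair p.code q.code)
  | .ite v test p q => Nat.pair 4 (Nat.pair (Nat.pair v (testCode test)) (Nat.pair p.code q.code))
  | .loop v test p => Nat.pair 5 (Nat.pair (Nat.pair v (testCode test)) p.code)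

theorem Cmd.code_injective : Injective Cmd.code := by
  intro p
  induction p with
  | push v b =>
    intro q h
    cases q <;> simp only [Cmd.code, Nat.pair_eq_pair] at h <;> try omega
    rw [h.2.1, toNat_inj h.2.2]
  | pop v =>
    intro q h
    cases q <;> simp only [Cmd.code, Nat.pair_eq_pair] at h <;> try omega
    rw [h.2]
  | skip =>
    intro q h
    cases q <;> simp only [Cmd.code, Nat.pair_eq_pair] at h <;> try omega
    rfl
  | seq p1 p2 ih1 ih2 =>
    intro q h
    cases q <;> simp only [Cmd.code, Nat.pair_eq_pair] at h <;> try omega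
    rw [ih1 h.2.1, ih2 h.2.2]
  | ite v test p1 p2 ih1 ih2 =>
    intro q h
    cases q <;> simp only [Cmd.code, Nat.pair_eq_pair] at h <;> try omega
    rw [h.2.1.1, testCode_inj h.2.1.2, ih1 h.2.2.1, ih2 h.2.2.2]
  | loop v test p ih =>
    intro q h
    cases q <;> simp only [Cmd.code, Nat.pair_eq_pair] at h <;> try omega
    rw [h.2.1.1, testCode_inj h.2.1.2, ih h.2.2]

instance : Countable Cmd := Cmd.code_injective.countable

theorem Exec.det {c : Cmd} {S S1 : Store} {t1 : ℕ} (h : Exec c S S1 t1) :
    ∀ {S2 : Store} {t2 : ℕ}, Exec c S S2 t2 → S1 = S2 := by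
  induction h with
  | push v b S => intro S2 t2 h2; cases h2; rfl
  | pop v S => intro S2 t2 h2; cases h2; rfl
  | skip S => intro S2 t2 h2; cases h2; rfl
  | seq _ _ ih1 ih2 =>
    intro S2 t2 h2
    cases h2 with
    | seq a b =>
      have := ih1 a
      subst this
      exact ih2 b
  | ite_t ht _ ih =>
    intro S2 t2 h2
    cases h2 with
    | ite_t _ a => exact ih a
    | ite_f hf _ => rw [ht] at hf; exact absurd hf (by decide)
  | ite_f hf _ ih =>
    intro S2 t2 h2
    cases h2 with
    | ite_t ht _ => rw [ht] at hf; exact absurd hf (by decide)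
    | ite_f _ a => exact ih a
  | loop_f hf =>
    intro S2 t2 h2
    cases h2 with
    | loop_f _ => rfl
    | loop_t ht _ _ => rw [ht] at hf; exact absurd hf (by decide)
  | loop_t ht _ _ ih1 ih2 =>
    intro S2 t2 h2
    cases h2 with
    | loop_f hf => rw [ht] at hf; exact absurd hf (by decide)
    | loop_t _ a b =>
      have := ih1 a
      subst this
      exact ih2 b

theorem PT.countable (α β : Type) [N487b59b3 α] [N487b59b3 β] :
    Countable {f : α → β // PT f} := by
  choose c hc using fun f : {f : α → β // PT f} => f.2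
  refine Function.Injective.countable (f := c) ?_
  intro f g hfg
  obtain ⟨p, hp⟩ := hc f
  obtain ⟨q, hq⟩ := hc g
  apply Subtype.ext
  funext a
  obtain ⟨t1, _, h1⟩ := hp a
  obtain ⟨t2, _, h2⟩ := hq a
  rw [hfg] at h1
  have h3 := congrFun (h1.det h2) 0
  simp only [single, if_true] at h3
  exact bitEncode_injective h3

/-- an enumeration of all polynomial-time functions -/
theorem PT.exists_enum {α β : Type} [N487b59b3 α] [N487b59b3 β] (b : β) :
    ∃ F : ℕ → α → β, (∀ n, PT (F n)) ∧ ∀ f : α → β, PT f → ∃ n, F n = f := by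
  have := PT.countable α β
  have hne : Nonempty {f : α → β // PT f} := ⟨⟨fun _ => b, PT.const b⟩⟩
  obtain ⟨F, hF⟩ := exists_surjective_nat {f : α → β // PT f}
  exact ⟨fun n => (F n).1, fun n => (F n).2, fun f hf => by
    obtain ⟨n, hn⟩ := hF ⟨f, hf⟩
    exact ⟨n, congrArg Subtype.val hn⟩⟩

theorem p_subset_np : N68a2faeb.P ⊆ N68a2faeb.NP := by
  intro L hL
  have h1 : PT L := PT.of_isPolyTime hL
  refine ⟨0, fun p => L p.1, (h1.comp PT.fst).isPolyTime, fun x => ?_⟩
  simp

end Pool.Agent.PT
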