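import Mathlib
import Pool.Agent.Lib_helper89.PPM.Count
import Pool.Agent.Lib_helper89.PPM.AlgCorrect

/-!
# Unbounded treewidth implies hardness of C-Pattern PPM if and only if P = NP
-/

set_option autoImplicit false

namespace Pool.Agent.PPM

open PT

theorem Contains.refl (π : Permutation) : Contains π π := ⟨id, strictMono_id, fun _ _ => Iff.rfl⟩

theorem Contains.trans {π σ τ : Permutation} (h : Contains π σ) (h' : Contains σ τ) :
    Contains π τ := by
  obtain ⟨f, hf, hf2⟩ := h
  obtain ⟨g, hg, hg2⟩ := h'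
  exact ⟨f ∘ g, hf.comp hg, fun i j => (hg2 i j).trans (hf2 _ _)⟩

theorem Contains.length_le {π σ : Permutation} (h : Contains π σ) : σ.1 ≤ π.1 := by
  obtain ⟨f, hf, _⟩ := h
  simpa using Fintype.card_le_of_injective f hf.injective

theorem pt_values : PT (fun π : Permutation => values π) := PT.of_enc_eq fun _ => rfl

/-- the staircase permutations -/
theorem exists_stairs : ∃ st : ℕ → ℕ → Permutation, ∀ K R,
    ¬ TreewidthLE (permGraph (st K R)) K ∧
      ∀ σ, Contains (st K R) σ → σ.1 ≤ R → Wid 17 σ := by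
  have h : ∀ K R : ℕ, ∃ π : Permutation, ¬ TreewidthLE (permGraph π) K ∧
      ∀ σ, Contains π σ → σ.1 ≤ R → Wid 17 σ := by
    intro K R
    obtain ⟨π, e, hX, hY, htw⟩ := exists_staircase_aux (K + 2) (R + 1)
      (2 * ((K + 2) * (2 * (R + 1)) ^ (K + 2)) + 1) (by omega) (by omega) rfl
    exact ⟨π, htw K rfl, fun σ hσ hlen => wid_of_contains (by omega) e hX hY hσ (by omega)⟩
  choose st hst using h
  exact ⟨st, hst⟩

theorem treewidthLE_of_length_le {π : Permutation} {k : ℕ} (h : π.1 ≤ k + 1) :
    TreewidthLE (permGraph π) k := by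
  refine ⟨1, ⊥, fun _ => Finset.univ, ?_, fun v => ⟨0, Finset.mem_univ _⟩,
    fun u v _ => ⟨0, Finset.mem_univ _, Finset.mem_univ _⟩, fun v => ?_, fun t => by simpa using h⟩
  · exact SimpleGraph.IsTree.of_subsingleton
  · have : Subsingleton {t : Fin 1 | v ∈ (Finset.univ : Finset (Fin π.1))} :=
      ⟨fun a b => Subtype.ext (Subsingleton.elim _ _)⟩
    have : Nonempty {t : Fin 1 | v ∈ (Finset.univ : Finset (Fin π.1))} :=
      ⟨⟨0, Finset.mem_univ v⟩⟩
    exact SimpleGraph.Connected.mk (fun a b => by rw [Subsingleton.elim a b])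

theorem hard_of_p_eq_np (h : N68a2faeb.P = N68a2faeb.NP) (C : Set Permutation)
    (hC : UnboundedTreewidth C) : PatternPPMHard C := by
  intro L hL
  rw [← h] at hL
  have hL' : PT L := PT.of_isPolyTime hL
  obtain ⟨π, hπ, htw⟩ := hC 0
  have hlen : 0 < π.1 := by
    by_contra h0
    exact htw (treewidthLE_of_length_le (by omega))
  refine ⟨fun x => if L x then (π, π) else (π, ⟨0, Equiv.refl _⟩),
    (PT.ite hL' (PT.const _) (PT.const _)).isPolyTime, fun x => ?_⟩
  have key : ∀ b : Bool, ((if b = true then (π, π) else (π, ⟨0, Equiv.refl _⟩) :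
      Permutation × Permutation)).1 ∈ C ∧ (b = true ↔
      Contains ((if b = true then (π, π) else (π, ⟨0, Equiv.refl _⟩) :
        Permutation × Permutation)).2 ((if b = true then (π, π) else (π, ⟨0, Equiv.refl _⟩) :
        Permutation × Permutation)).1) := by
    intro b
    cases b
    · simp only [Bool.false_eq_true, if_false]
      refine ⟨hπ, ⟨fun h => absurd h id, fun h => ?_⟩⟩
      have := h.length_le
      simp only at this
      omega
    · simp only [if_true]
      exact ⟨hπ, ⟨fun _ => Contains.refl π, fun _ => trivial⟩⟩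
  exact key (L x)

/-- There is a class of unbounded treewidth such that every language that reduces to the
corresponding pattern matching problem is in P. -/
theorem exists_easy_class : ∃ C : Set Permutation, IsClass C ∧ UnboundedTreewidth C ∧
    ∀ L : List Bool → Bool, ReducesToPatternPPM L C → L ∈ N68a2faeb.P := by
  classical
  obtain ⟨F, hF, hFs⟩ := PT.exists_enum (α := List Bool) (β := Permutation × Permutation)
    (⟨0, Equiv.refl _⟩, ⟨0, Equiv.refl _⟩)
  obtain ⟨st, hst⟩ := exists_stairs
  have hbad : ∀ K g : ℕ, ∃ x, (∀ y, Wid (max 17 g) (F K y).1) ∨ ¬ Wid (max 17 g) (F K x).1 := by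
    intro K g
    by_cases h : ∀ y, Wid (max 17 g) (F K y).1
    · exact ⟨[], Or.inl h⟩
    · push Not at h
      obtain ⟨x, hx⟩ := h
      exact ⟨x, Or.inr hx⟩
  choose bad hbad using hbad
  let rad : ℕ → ℕ → ℕ := fun K n => n + (F K (bad K n)).1.1
  let N : ℕ → ℕ := fun K => Nat.rec 0 (fun K n => n + (st K (rad K n)).1 + rad K n) K
  have hN : ∀ K, N (K + 1) = N K + (st K (rad K (N K))).1 + rad K (N K) := fun K => rfl
  have hNmono : Monotone N := monotone_nat_of_le_succ fun K => by rw [hN]; omega
  have hRmono : Monotone (fun K => rad K (N K)) := monotone_nat_of_le_succ fun K => by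
    have h1 := hN K
    have h2 : rad (K + 1) (N (K + 1)) = N (K + 1) + (F (K + 1) (bad (K + 1) (N (K + 1)))).1.1 := rfl
    omega
  refine ⟨{σ | ∃ K, Contains (st K (rad K (N K))) σ}, ?_, ?_, ?_⟩
  · rintro τ ⟨K, hK⟩ π hπ
    exact ⟨K, hK.trans hπ⟩
  · intro k
    exact ⟨st k (rad k (N k)), ⟨k, Contains.refl _⟩, (hst k _).1⟩
  · rintro L ⟨f, hf, hf2⟩
    obtain ⟨K, rfl⟩ := hFs f (PT.of_isPolyTime hf)
    have hall : ∀ y, Wid (max 17 (N K)) (F K y).1 := by
      rcases hbad K (N K) with h | h
      · exact h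
      · exfalso
        apply h
        obtain ⟨⟨j, hj⟩, _⟩ := hf2 (bad K (N K))
        rcases lt_or_ge j K with hjK | hjK
        · refine Wid.mono (le_max_right _ _) (wid_of_length_le ?_)
          have h1 := hj.length_le
          have h2 := hN j
          have h3 := hNmono (show j + 1 ≤ K from hjK)
          omega
        · refine Wid.mono (le_max_left _ _) ((hst j _).2 _ hj ?_)
          have h1 : rad K (N K) ≤ rad j (N j) := hRmono hjK
          have h2 : rad K (N K) = N K + (F K (bad K (N K))).1.1 := rfl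
          omega
    have h1 : PT (fun x => alg (3 * max 17 (N K)) (values (F K x).1) (values (F K x).2)) :=
      (pt_alg (3 * max 17 (N K))).comp
        ((pt_values.comp (hF K).comp_fst).pair (pt_values.comp (hF K).comp_snd))
    have h2 : PT L := h1.congr fun x => by
      have h5 := alg_iff (K := 3 * max 17 (N K)) (g := max 17 (N K)) (by omega) le_rfl
        (τ := (F K x).2) (hall x)
      exact Bool.eq_iff_iff.mpr (h5.trans (hf2 x).2.symm)
    exact h2.isPolyTime

theorem main_theorem :
    ((∀ C : Set Permutation, IsClass C → UnboundedTreewidth C → PatternPPMHard C) ↔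
      N68a2faeb.P = N68a2faeb.NP) ∧
    ∃ C : Set Permutation, IsClass C ∧ UnboundedTreewidth C ∧
      ∀ L : List Bool → Bool, ReducesToPatternPPM L C → L ∈ N68a2faeb.P := by
  refine ⟨⟨fun h => ?_, fun h C _ h2 => hard_of_p_eq_np h C h2⟩, exists_easy_class⟩
  obtain ⟨C, h1, h2, h3⟩ := exists_easy_class
  exact Set.Subset.antisymm p_subset_np fun L hL => h3 L (h C h1 h2 L hL)

end Pool.Agent.PPM
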